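import Mathlib

/-! The curves with a rational cyclic subgroup of order 4, ordered by height: parameters, bounds and
the number of the curves. -/

set_option autoImplicit false

namespace Pool.Agent.Q17.IG

open Finset Filter Topology

/-- the root `e` of `x³ + A x + B`, and `q² = 3 e² + A` -/
def Cyc (c : ℤ × ℤ) : Prop := ∃ e q : ℤ, c.1 = q ^ 2 - 3 * e ^ 2 ∧ c.2 = 2 * e ^ 3 - q ^ 2 * e

open Classical in
/-- the curves of height at most `H` with a rational cyclic subgroup of order 4 -/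
noncomputable def Fm (H : ℕ) : Finset (ℤ × ℤ) :=
  ((Icc (-(H : ℤ)) H) ×ˢ (Icc (-(H : ℤ)) H)).filter (fun c : ℤ × ℤ =>
    4 * c.1 ^ 3 + 27 * c.2 ^ 2 ≠ 0 ∧ 4 * |c.1| ^ 3 ≤ H ∧ 27 * c.2 ^ 2 ≤ H ∧
    (∀ p : ℕ, p.Prime → ¬ ((p : ℤ) ^ 4 ∣ c.1 ∧ (p : ℤ) ^ 6 ∣ c.2)) ∧ Cyc c)

lemma mem_Fm {H : ℕ} {c : ℤ × ℤ} : c ∈ Fm H ↔
    4 * c.1 ^ 3 + 27 * c.2 ^ 2 ≠ 0 ∧ 4 * |c.1| ^ 3 ≤ H ∧ 27 * c.2 ^ 2 ≤ H ∧
    (∀ p : ℕ, p.Prime → ¬ ((p : ℤ) ^ 4 ∣ c.1 ∧ (p : ℤ) ^ 6 ∣ c.2)) ∧ Cyc c := by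
  classical
  unfold Fm
  rw [mem_filter, mem_product, mem_Icc, mem_Icc]
  refine ⟨fun h => h.2, fun h => ⟨?_, h⟩⟩
  obtain ⟨-, h1, h2, -⟩ := h
  have a1 : |c.1| ≤ H := by
    rcases eq_or_ne c.1 0 with h0 | h0
    · rw [h0, abs_zero]
      exact Int.natCast_nonneg H
    · have h3 : 1 ≤ |c.1| := Int.one_le_abs h0
      have h4 : |c.1| ≤ |c.1| ^ 3 := by nlinarith [sq_nonneg (|c.1|), mul_self_nonneg (|c.1| - 1)]
      omega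
  have a2 : |c.2| ≤ H := by
    rcases eq_or_ne c.2 0 with h0 | h0
    · rw [h0, abs_zero]
      exact Int.natCast_nonneg H
    · have h3 : 1 ≤ |c.2| := Int.one_le_abs h0
      have h4 : |c.2| ≤ c.2 ^ 2 := by
        rw [← sq_abs]
        nlinarith
      omega
  rw [abs_le] at a1 a2
  exact ⟨a1, a2⟩

lemma Fm_mono : Monotone Fm := by
  intro H H' h c hc
  rw [mem_Fm] at hc ⊢
  have h1 : (H : ℤ) ≤ H' := by exact_mod_cast h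
  exact ⟨hc.1, hc.2.1.trans h1, hc.2.2.1.trans h1, hc.2.2.2⟩

/-- the discriminant -/
lemma disc_eq (e q : ℤ) : 4 * (q ^ 2 - 3 * e ^ 2) ^ 3 + 27 * (2 * e ^ 3 - q ^ 2 * e) ^ 2 =
    q ^ 4 * (4 * q ^ 2 - 9 * e ^ 2) := by ring

/-- the size of the parameters -/
lemma bd_eq {e q : ℤ} {H : ℕ} (h1 : 4 * |q ^ 2 - 3 * e ^ 2| ^ 3 ≤ (H : ℤ))
    (h2 : 27 * (2 * e ^ 3 - q ^ 2 * e) ^ 2 ≤ (H : ℤ)) :
    (3 * e + 2 * q).natAbs ^ 6 ≤ 14 ^ 6 * H ∧ (3 * e - 2 * q).natAbs ^ 6 ≤ 14 ^ 6 * H := by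
  obtain ⟨A, hA⟩ : ∃ A : ℝ, A = (q : ℝ) ^ 2 - 3 * (e : ℝ) ^ 2 := ⟨_, rfl⟩
  obtain ⟨B, hB⟩ : ∃ B : ℝ, B = 2 * (e : ℝ) ^ 3 - (q : ℝ) ^ 2 * e := ⟨_, rfl⟩
  have h1' : 4 * |A| ^ 3 ≤ (H : ℝ) := by
    have : (((4 * |q ^ 2 - 3 * e ^ 2| ^ 3 : ℤ)) : ℝ) ≤ ((H : ℤ) : ℝ) := Int.cast_le.2 h1
    push_cast at this
    rw [hA]
    exact this
  have h2' : 27 * B ^ 2 ≤ (H : ℝ) := by
    have : (((27 * (2 * e ^ 3 - q ^ 2 * e) ^ 2 : ℤ)) : ℝ) ≤ ((H : ℤ) : ℝ) := Int.cast_le.2 h2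
    push_cast at this
    rw [hB]
    exact this
  obtain ⟨M, hM0, hM⟩ : ∃ M : ℝ, 0 ≤ M ∧ M ^ 6 = H := by
    refine ⟨(H : ℝ) ^ ((1 : ℝ) / 6), by positivity, ?_⟩
    rw [← Real.rpow_natCast, ← Real.rpow_mul (Nat.cast_nonneg H)]
    norm_num
  have a1 : |A| ≤ M ^ 2 := by
    have : |A| ^ 3 ≤ (M ^ 2) ^ 3 := by
      have e1 : (M ^ 2) ^ 3 = M ^ 6 := by ring
      rw [e1, hM]
      have := pow_nonneg (abs_nonneg A) 3
      linarith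
    exact (pow_le_pow_iff_left₀ (abs_nonneg A) (by positivity) (by norm_num)).1 this
  have a2 : |B| ≤ M ^ 3 := by
    have : |B| ^ 2 ≤ (M ^ 3) ^ 2 := by
      have e1 : (M ^ 3) ^ 2 = M ^ 6 := by ring
      rw [e1, hM, sq_abs]
      have := sq_nonneg B
      linarith
    exact (pow_le_pow_iff_left₀ (abs_nonneg B) (by positivity) (by norm_num)).1 this
  have a3 : |(e : ℝ)| ≤ 2 * M := by
    by_contra hcon
    rw [not_le] at hcon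
    have b1 : (e : ℝ) ^ 3 = -(A * e) - B := by
      rw [hA, hB]
      ring
    have b2 : |(e : ℝ)| ^ 3 ≤ M ^ 2 * |(e : ℝ)| + M ^ 3 := by
      rw [← abs_pow, b1]
      calc |-(A * (e : ℝ)) - B| ≤ |-(A * (e : ℝ))| + |B| := abs_sub _ _
        _ = |A| * |(e : ℝ)| + |B| := by rw [abs_neg, abs_mul]
        _ ≤ _ := add_le_add (mul_le_mul_of_nonneg_right a1 (abs_nonneg _)) a2
    have b3 : 0 < (|(e : ℝ)| - 2 * M) * (|(e : ℝ)| ^ 2 + 2 * M * |(e : ℝ)| + 3 * M ^ 2) := by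
      have : 0 < |(e : ℝ)| := lt_of_le_of_lt (by positivity) hcon
      apply mul_pos (sub_pos.2 hcon)
      positivity
    have b4 : 0 ≤ M ^ 3 := by positivity
    nlinarith
  have a4 : |(q : ℝ)| ≤ 4 * M := by
    have b1 : (q : ℝ) ^ 2 = A + 3 * (e : ℝ) ^ 2 := by
      rw [hA]
      ring
    have b2 : A ≤ M ^ 2 := (le_abs_self A).trans a1
    have b3 : (e : ℝ) ^ 2 ≤ (2 * M) ^ 2 := by
      rw [← sq_abs]
      exact pow_le_pow_left₀ (abs_nonneg _) a3 2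
    have b4 : |(q : ℝ)| ^ 2 ≤ (4 * M) ^ 2 := by
      rw [sq_abs, b1]
      nlinarith
    exact (pow_le_pow_iff_left₀ (abs_nonneg _) (by positivity) (by norm_num)).1 b4
  have key : ∀ s : ℤ, |s| = 1 → (3 * e + s * (2 * q)).natAbs ^ 6 ≤ 14 ^ 6 * H := by
    intro s hs
    have hs' : |(s : ℝ)| = 1 := by exact_mod_cast hs
    have b1 : (((3 * e + s * (2 * q)).natAbs : ℕ) : ℝ) ≤ 14 * M := by
      rw [Nat.cast_natAbs]
      push_cast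
      calc |3 * (e : ℝ) + s * (2 * q)| ≤ |3 * (e : ℝ)| + |(s : ℝ) * (2 * q)| := abs_add_le _ _
        _ = 3 * |(e : ℝ)| + 2 * |(q : ℝ)| := by
          rw [abs_mul, abs_mul, hs', abs_mul]
          norm_num
        _ ≤ _ := by linarith
    have b2 : (((3 * e + s * (2 * q)).natAbs : ℕ) : ℝ) ^ 6 ≤ 14 ^ 6 * H := by
      calc _ ≤ (14 * M) ^ 6 := pow_le_pow_left₀ (Nat.cast_nonneg _) b1 6
        _ = _ := by rw [mul_pow, hM]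
    exact_mod_cast b2
  refine ⟨?_, ?_⟩
  · have := key 1 (by norm_num)
    rwa [one_mul] at this
  · have := key (-1) (by norm_num)
    have e1 : 3 * e + -1 * (2 * q) = 3 * e - 2 * q := by ring
    rwa [e1] at this

/-! ### The number of the curves -/

lemma sum_sq (m : ℕ) (hm : 2 ≤ m) : ∑ k ∈ Icc 2 m, 1 / ((k : ℝ) ^ 2) ≤ 3 / 4 - 1 / (m : ℝ) := by
  induction m, hm using Nat.le_induction with
  | base => norm_num
  | succ n hn ih =>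
    rw [Finset.sum_Icc_succ_top (by omega)]
    have h0 : (0 : ℝ) < n := by
      have : 0 < n := by omega
      exact_mod_cast this
    have h1 : 1 / (((n + 1 : ℕ) : ℝ) ^ 2) ≤ 1 / (n : ℝ) - 1 / ((n + 1 : ℕ) : ℝ) := by
      push_cast
      rw [div_sub_div _ _ h0.ne' (by positivity), div_le_div_iff₀ (by positivity) (by positivity)]
      nlinarith
    linarith

/-- at least a quarter of the integers up to `m` are squarefree -/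
lemma sqf_card (m : ℕ) : (m : ℝ) / 4 ≤ ((Icc 1 m).filter Squarefree).card := by
  classical
  rcases Nat.lt_or_ge m 2 with hm | hm
  · interval_cases m
    · simp
    · have : (Icc 1 1).filter Squarefree = {1} := by
        ext x
        simp only [mem_filter, mem_Icc, mem_singleton]
        constructor
        · rintro ⟨h, -⟩
          omega
        · rintro rfl
          exact ⟨⟨le_rfl, le_rfl⟩, squarefree_one⟩
      rw [this]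
      norm_num
  have h1 : (Icc 1 m).filter (fun e => ¬ Squarefree e) ⊆
      (Icc 2 m).biUnion (fun k => (Icc 1 m).filter (fun e => k ^ 2 ∣ e)) := by
    intro e he
    rw [mem_filter, mem_Icc] at he
    obtain ⟨⟨h2, h3⟩, h4⟩ := he
    rw [Nat.squarefree_iff_prime_squarefree] at h4
    push Not at h4
    obtain ⟨p, hp, hpd⟩ := h4
    rw [mem_biUnion]
    refine ⟨p, ?_, ?_⟩
    · rw [mem_Icc]
      have : p * p ≤ e := Nat.le_of_dvd (by omega) hpd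
      have h5 : p ≤ p * p := Nat.le_mul_self p
      exact ⟨hp.two_le, by omega⟩
    · rw [mem_filter, mem_Icc, sq]
      exact ⟨⟨h2, h3⟩, hpd⟩
  have h2 : (((Icc 1 m).filter (fun e => ¬ Squarefree e)).card : ℝ) ≤ 3 / 4 * m := by
    have h3 := (card_le_card h1).trans card_biUnion_le
    have h4 : ∀ k ∈ Icc 2 m, (((Icc 1 m).filter (fun e => k ^ 2 ∣ e)).card : ℝ) ≤
        m * (1 / ((k : ℝ) ^ 2)) := by
      intro k hk
      rw [mem_Icc] at hk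
      have h5 : ((Icc 1 m).filter (fun e => k ^ 2 ∣ e)).card = m / k ^ 2 := by
        have h6 : (Icc 1 m).filter (fun e => k ^ 2 ∣ e) = (Ioc 0 m).filter (fun e => k ^ 2 ∣ e) := by
          ext x
          simp only [mem_filter, mem_Icc, mem_Ioc]
          constructor
          · rintro ⟨⟨h, h'⟩, h''⟩
            exact ⟨⟨h, h'⟩, h''⟩
          · rintro ⟨⟨h, h'⟩, h''⟩
            exact ⟨⟨h, h'⟩, h''⟩
        rw [h6, Nat.Ioc_filter_dvd_card_eq_div]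
      rw [h5]
      have h7 : ((m / k ^ 2 : ℕ) : ℝ) ≤ (m : ℝ) / ((k ^ 2 : ℕ) : ℝ) := Nat.cast_div_le
      refine h7.trans (le_of_eq ?_)
      push_cast
      ring
    calc (((Icc 1 m).filter (fun e => ¬ Squarefree e)).card : ℝ)
        ≤ ∑ k ∈ Icc 2 m, (((Icc 1 m).filter (fun e => k ^ 2 ∣ e)).card : ℝ) := by
          exact_mod_cast h3
      _ ≤ ∑ k ∈ Icc 2 m, (m : ℝ) * (1 / ((k : ℝ) ^ 2)) := sum_le_sum h4
      _ = m * ∑ k ∈ Icc 2 m, 1 / ((k : ℝ) ^ 2) := by rw [mul_sum]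
      _ ≤ m * (3 / 4 - 1 / m) := mul_le_mul_of_nonneg_left (sum_sq m hm) (Nat.cast_nonneg _)
      _ ≤ 3 / 4 * m := by
          have h0 : (0 : ℝ) ≤ 1 / m := by positivity
          have h1 : (0 : ℝ) ≤ (m : ℝ) * (1 / m) := by positivity
          nlinarith
  have h3 : ((Icc 1 m).filter Squarefree).card +
      ((Icc 1 m).filter (fun e => ¬ Squarefree e)).card = m := by
    rw [card_filter_add_card_filter_not, Nat.card_Icc]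
    omega
  have h4 : (((Icc 1 m).filter Squarefree).card : ℝ) +
      ((Icc 1 m).filter (fun e => ¬ Squarefree e)).card = m := by exact_mod_cast h3
  linarith

/-- the curve with the parameters `e`, `q` -/
def cur (x : ℕ × ℕ) : ℤ × ℤ :=
  (((x.2 : ℤ)) ^ 2 - 3 * (x.1 : ℤ) ^ 2, 2 * (x.1 : ℤ) ^ 3 - (x.2 : ℤ) ^ 2 * x.1)

/-- minimality -/
lemma cur_min {e : ℕ} (he : Squarefree e) (q : ℕ) (p : ℕ) (hp : p.Prime) :
    ¬ ((p : ℤ) ^ 4 ∣ (cur (e, q)).1 ∧ (p : ℤ) ^ 6 ∣ (cur (e, q)).2) := by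
  rintro ⟨h1, h2⟩
  change (p : ℤ) ^ 4 ∣ (q : ℤ) ^ 2 - 3 * (e : ℤ) ^ 2 at h1
  change (p : ℤ) ^ 6 ∣ 2 * (e : ℤ) ^ 3 - (q : ℤ) ^ 2 * e at h2
  have hpp : Prime (p : ℤ) := Nat.prime_iff_prime_int.1 hp
  have h3 : (e : ℤ) ^ 3 = -((q : ℤ) ^ 2 - 3 * (e : ℤ) ^ 2) * e -
      (2 * (e : ℤ) ^ 3 - (q : ℤ) ^ 2 * e) := by ring
  have h4 : (p : ℤ) ∣ (e : ℤ) := by
    apply hpp.dvd_of_dvd_pow (n := 3)
    rw [h3]
    apply dvd_sub
    · exact Dvd.dvd.mul_right ((dvd_neg).2 ((dvd_pow_self _ (by norm_num)).trans h1)) _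
    · exact (dvd_pow_self _ (by norm_num)).trans h2
  obtain ⟨f, hf⟩ := h4
  have h5 : (p : ℤ) ^ 5 ∣ (e : ℤ) ^ 3 := by
    rw [h3]
    apply dvd_sub
    · have e1 : (p : ℤ) ^ 5 = (p : ℤ) ^ 4 * p := by ring
      rw [e1]
      exact mul_dvd_mul ((dvd_neg).2 h1) ⟨f, hf⟩
    · exact (pow_dvd_pow _ (by norm_num)).trans h2
  rw [hf] at h5
  have e2 : ((p : ℤ) * f) ^ 3 = (p : ℤ) ^ 3 * f ^ 3 := by ring
  have e3 : (p : ℤ) ^ 5 = (p : ℤ) ^ 3 * (p : ℤ) ^ 2 := by ring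
  rw [e2, e3] at h5
  have h6 : (p : ℤ) ^ 2 ∣ f ^ 3 :=
    (mul_dvd_mul_iff_left (pow_ne_zero 3 hpp.ne_zero)).1 h5
  have h7 : (p : ℤ) ∣ f := hpp.dvd_of_dvd_pow (n := 3)
    ((dvd_pow_self _ (by norm_num)).trans h6)
  have h8 : (p : ℤ) * p ∣ (e : ℤ) := by
    rw [hf]
    exact mul_dvd_mul_left _ h7
  have h9 : p * p ∣ e := by exact_mod_cast h8
  have := he p h9
  exact hp.one_lt.ne' (Nat.isUnit_iff.1 this)

/-- the curves of the small box -/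
lemma cur_mem {m H : ℕ} (hH : 16384 * m ^ 6 ≤ H) {x : ℕ × ℕ}
    (hx : x ∈ ((Icc 1 m).filter Squarefree) ×ˢ (Ioc (2 * m) (4 * m))) : cur x ∈ Fm H := by
  obtain ⟨e, q⟩ := x
  rw [mem_product, mem_filter, mem_Icc, mem_Ioc] at hx
  obtain ⟨⟨⟨h1, h2⟩, h3⟩, h4, h5⟩ := hx
  change 1 ≤ e at h1
  change e ≤ m at h2
  change Squarefree e at h3
  change 2 * m < q at h4
  change q ≤ 4 * m at h5
  have h1' : (1 : ℤ) ≤ e := by exact_mod_cast h1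
  have h2' : (e : ℤ) ≤ m := by exact_mod_cast h2
  have h4' : 2 * (m : ℤ) < q := by exact_mod_cast h4
  have h5' : (q : ℤ) ≤ 4 * m := by exact_mod_cast h5
  have hH' : 16384 * (m : ℤ) ^ 6 ≤ H := by exact_mod_cast hH
  have hm0 : (0 : ℤ) ≤ m := Int.natCast_nonneg m
  have hq0 : (0 : ℤ) ≤ q := Int.natCast_nonneg q
  have b1 : (e : ℤ) ^ 2 ≤ (m : ℤ) ^ 2 := pow_le_pow_left₀ (by omega) h2' 2
  have b2 : (q : ℤ) ^ 2 ≤ 16 * (m : ℤ) ^ 2 := by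
    calc (q : ℤ) ^ 2 ≤ (4 * (m : ℤ)) ^ 2 := pow_le_pow_left₀ hq0 h5' 2
      _ = _ := by ring
  have b3 : 4 * (m : ℤ) ^ 2 ≤ (q : ℤ) ^ 2 := by
    calc 4 * (m : ℤ) ^ 2 = (2 * (m : ℤ)) ^ 2 := by ring
      _ ≤ _ := pow_le_pow_left₀ (by omega) h4'.le 2
  have c1 : |(q : ℤ) ^ 2 - 3 * (e : ℤ) ^ 2| ≤ 16 * (m : ℤ) ^ 2 := by
    rw [abs_le]
    have := sq_nonneg (e : ℤ)
    have := sq_nonneg (q : ℤ)
    constructor <;> linarith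
  have c2 : |2 * (e : ℤ) ^ 3 - (q : ℤ) ^ 2 * e| ≤ 16 * (m : ℤ) ^ 3 := by
    have e1 : 2 * (e : ℤ) ^ 3 - (q : ℤ) ^ 2 * e = -((e : ℤ) * ((q : ℤ) ^ 2 - 2 * (e : ℤ) ^ 2)) := by
      ring
    rw [e1, abs_neg, abs_mul, abs_of_nonneg (by omega : (0 : ℤ) ≤ e)]
    have c3 : |(q : ℤ) ^ 2 - 2 * (e : ℤ) ^ 2| ≤ 16 * (m : ℤ) ^ 2 := by
      rw [abs_le]
      have := sq_nonneg (e : ℤ)
      have := sq_nonneg (q : ℤ)
      constructor <;> linarith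
    calc (e : ℤ) * |(q : ℤ) ^ 2 - 2 * (e : ℤ) ^ 2| ≤ m * (16 * (m : ℤ) ^ 2) :=
          mul_le_mul h2' c3 (abs_nonneg _) hm0
      _ = _ := by ring
  rw [mem_Fm]
  refine ⟨?_, ?_, ?_, cur_min h3 q, ⟨e, q, rfl, rfl⟩⟩
  · change 4 * ((q : ℤ) ^ 2 - 3 * (e : ℤ) ^ 2) ^ 3 + 27 * (2 * (e : ℤ) ^ 3 - (q : ℤ) ^ 2 * e) ^ 2 ≠ 0
    rw [disc_eq]
    apply mul_ne_zero
    · apply pow_ne_zero
      omega
    · have h6 : 0 < 4 * (q : ℤ) ^ 2 - 9 * (e : ℤ) ^ 2 := by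
        have : (1 : ℤ) ≤ (m : ℤ) ^ 2 := one_le_pow₀ (h1'.trans h2')
        linarith
      exact h6.ne'
  · change 4 * |(q : ℤ) ^ 2 - 3 * (e : ℤ) ^ 2| ^ 3 ≤ (H : ℤ)
    calc 4 * |(q : ℤ) ^ 2 - 3 * (e : ℤ) ^ 2| ^ 3 ≤ 4 * (16 * (m : ℤ) ^ 2) ^ 3 :=
          mul_le_mul_of_nonneg_left (pow_le_pow_left₀ (abs_nonneg _) c1 3) (by norm_num)
      _ = 16384 * (m : ℤ) ^ 6 := by ring
      _ ≤ H := hH'
  · change 27 * (2 * (e : ℤ) ^ 3 - (q : ℤ) ^ 2 * e) ^ 2 ≤ (H : ℤ)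
    calc 27 * (2 * (e : ℤ) ^ 3 - (q : ℤ) ^ 2 * e) ^ 2
        = 27 * |2 * (e : ℤ) ^ 3 - (q : ℤ) ^ 2 * e| ^ 2 := by rw [sq_abs]
      _ ≤ 27 * (16 * (m : ℤ) ^ 3) ^ 2 :=
          mul_le_mul_of_nonneg_left (pow_le_pow_left₀ (abs_nonneg _) c2 2) (by norm_num)
      _ = 6912 * (m : ℤ) ^ 6 := by ring
      _ ≤ 16384 * (m : ℤ) ^ 6 := by
          have : (0 : ℤ) ≤ (m : ℤ) ^ 6 := by positivity
          linarith
      _ ≤ H := hH'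

lemma cur_inj (m : ℕ) :
    Set.InjOn cur (((Icc 1 m).filter Squarefree) ×ˢ (Ioc (2 * m) (4 * m)) : Finset (ℕ × ℕ)) := by
  rintro ⟨e, q⟩ hx ⟨e', q'⟩ hx' h
  rw [mem_coe, mem_product, mem_filter, mem_Icc, mem_Ioc] at hx hx'
  obtain ⟨⟨⟨h1, h2⟩, h3⟩, h4, h5⟩ := hx
  obtain ⟨⟨⟨g1, g2⟩, g3⟩, g4, g5⟩ := hx'
  change 1 ≤ e at h1
  change e ≤ m at h2
  change 2 * m < q at h4
  change 1 ≤ e' at g1
  change e' ≤ m at g2
  change 2 * m < q' at g4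
  have k1 : (q : ℤ) ^ 2 - 3 * (e : ℤ) ^ 2 = (q' : ℤ) ^ 2 - 3 * (e' : ℤ) ^ 2 := congrArg Prod.fst h
  have k2 : 2 * (e : ℤ) ^ 3 - (q : ℤ) ^ 2 * e = 2 * (e' : ℤ) ^ 3 - (q' : ℤ) ^ 2 * e' :=
    congrArg Prod.snd h
  have k3 : ((e' : ℤ) - e) * (((e' : ℤ) - e) ^ 2 + 3 * e * (e' - e) + (q : ℤ) ^ 2) = 0 := by
    linear_combination (e' : ℤ) * k1 + k2
  have hq4 : 9 * (e : ℤ) ^ 2 < 4 * (q : ℤ) ^ 2 := by
    have a1 : (3 * (e : ℤ)) < 2 * q := by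
      have h2' : (e : ℤ) ≤ m := by exact_mod_cast h2
      have h4' : 2 * (m : ℤ) < q := by exact_mod_cast h4
      have h1' : (1 : ℤ) ≤ e := by exact_mod_cast h1
      omega
    have a2 : (3 * (e : ℤ)) ^ 2 < (2 * q) ^ 2 := pow_lt_pow_left₀ a1 (by positivity) (by norm_num)
    linarith
  have hee : e' = e := by
    rcases mul_eq_zero.1 k3 with h0 | h0
    · omega
    · exfalso
      have : (2 * ((e' : ℤ) - e) + 3 * e) ^ 2 + (4 * (q : ℤ) ^ 2 - 9 * (e : ℤ) ^ 2) = 0 := by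
        linear_combination 4 * h0
      nlinarith [sq_nonneg (2 * ((e' : ℤ) - e) + 3 * e)]
  subst hee
  have hqq : (q : ℤ) ^ 2 = (q' : ℤ) ^ 2 := by linarith
  have : (q : ℤ) = q' := by
    have a1 : (0 : ℤ) ≤ q := Int.natCast_nonneg q
    have a2 : (0 : ℤ) ≤ q' := Int.natCast_nonneg q'
    exact (pow_left_inj₀ a1 a2 (by norm_num)).1 hqq
  rw [Prod.mk.injEq]
  exact ⟨rfl, by exact_mod_cast this⟩

/-- the number of the curves -/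
lemma Fm_low {m H : ℕ} (hH : 16384 * m ^ 6 ≤ H) : (m : ℝ) ^ 2 / 2 ≤ (Fm H).card := by
  classical
  have h1 : (((Icc 1 m).filter Squarefree) ×ˢ (Ioc (2 * m) (4 * m))).card ≤ (Fm H).card :=
    card_le_card_of_injOn cur (fun x hx => cur_mem hH (mem_coe.1 hx)) (cur_inj m)
  rw [card_product, Nat.card_Ioc] at h1
  have h2 : 4 * m - 2 * m = 2 * m := by omega
  rw [h2] at h1
  have h3 : ((((Icc 1 m).filter Squarefree).card : ℕ) : ℝ) * (2 * m) ≤ (Fm H).card := by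
    exact_mod_cast h1
  have h4 := sqf_card m
  have h5 : (0 : ℝ) ≤ 2 * m := by positivity
  calc (m : ℝ) ^ 2 / 2 = m / 4 * (2 * m) := by ring
    _ ≤ ((((Icc 1 m).filter Squarefree).card : ℕ) : ℝ) * (2 * m) :=
        mul_le_mul_of_nonneg_right h4 h5
    _ ≤ _ := h3

lemma Fm_lower : ∃ (C4 : ℝ) (N1 : ℕ), 0 < C4 ∧ ∀ N H : ℕ, N1 ≤ N → N ^ 6 ≤ 14 ^ 6 * H →
    (N : ℝ) ^ 2 ≤ C4 * (Fm H).card := by
  refine ⟨39762, 71, by norm_num, fun N H hN hH => ?_⟩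
  obtain ⟨m, hm⟩ : ∃ m : ℕ, m = N / 71 := ⟨_, rfl⟩
  have h1 : 71 * m ≤ N := by omega
  have h2 : N ≤ 141 * m := by omega
  have h3 : 16384 * m ^ 6 ≤ H := by
    have a1 : (71 * m) ^ 6 ≤ 14 ^ 6 * H := (Nat.pow_le_pow_left h1 6).trans hH
    rw [mul_pow] at a1
    have a2 : 14 ^ 6 * (16384 * m ^ 6) ≤ 71 ^ 6 * m ^ 6 := by
      rw [← mul_assoc]
      exact Nat.mul_le_mul_right _ (by norm_num)
    exact Nat.le_of_mul_le_mul_left (a2.trans a1) (by norm_num)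
  have h4 := Fm_low h3
  have h5 : (N : ℝ) ≤ 141 * m := by exact_mod_cast h2
  have h6 : (N : ℝ) ^ 2 ≤ (141 * m) ^ 2 := pow_le_pow_left₀ (Nat.cast_nonneg _) h5 2
  calc (N : ℝ) ^ 2 ≤ (141 * m) ^ 2 := h6
    _ = 39762 * ((m : ℝ) ^ 2 / 2) := by ring
    _ ≤ _ := mul_le_mul_of_nonneg_left h4 (by norm_num)

/-! ### The parameters -/

lemma Fm_ex {H : ℕ} {c : ℤ × ℤ} (hc : c ∈ Fm H) :
    ∃ x : ℤ × ℤ, c.1 = x.2 ^ 2 - 3 * x.1 ^ 2 ∧ c.2 = 2 * x.1 ^ 3 - x.2 ^ 2 * x.1 := by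
  obtain ⟨e, q, h⟩ := (mem_Fm.1 hc).2.2.2.2
  exact ⟨(e, q), h⟩

open Classical in
/-- the parameters of a curve -/
noncomputable def par (c : ℤ × ℤ) : ℤ × ℤ :=
  if h : ∃ x : ℤ × ℤ, c.1 = x.2 ^ 2 - 3 * x.1 ^ 2 ∧ c.2 = 2 * x.1 ^ 3 - x.2 ^ 2 * x.1 then
    h.choose else (0, 0)

lemma par_spec {H : ℕ} {c : ℤ × ℤ} (hc : c ∈ Fm H) :
    c.1 = (par c).2 ^ 2 - 3 * (par c).1 ^ 2 ∧
      c.2 = 2 * (par c).1 ^ 3 - (par c).2 ^ 2 * (par c).1 := by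
  unfold par
  rw [dif_pos (Fm_ex hc)]
  exact (Fm_ex hc).choose_spec

/-- the differences of the roots of the isogenous curve -/
noncomputable def df (c : ℤ × ℤ) : ℤ × ℤ :=
  (3 * (par c).1 + 2 * (par c).2, 3 * (par c).1 - 2 * (par c).2)

lemma df_inj (H : ℕ) : Set.InjOn df (Fm H : Set (ℤ × ℤ)) := by
  intro c hc c' hc' h
  have h1 : 3 * (par c).1 + 2 * (par c).2 = 3 * (par c').1 + 2 * (par c').2 :=
    congrArg Prod.fst h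
  have h2 : 3 * (par c).1 - 2 * (par c).2 = 3 * (par c').1 - 2 * (par c').2 :=
    congrArg Prod.snd h
  have e1 : (par c).1 = (par c').1 := by omega
  have e2 : (par c).2 = (par c').2 := by omega
  obtain ⟨a1, a2⟩ := par_spec (mem_coe.1 hc)
  obtain ⟨b1, b2⟩ := par_spec (mem_coe.1 hc')
  rw [← e1, ← e2] at b1 b2
  exact Prod.ext (a1.trans b1.symm) (a2.trans b2.symm)

lemma par_ne {H : ℕ} {c : ℤ × ℤ} (hc : c ∈ Fm H) :
    (par c).2 ≠ 0 ∧ 4 * (par c).2 ^ 2 ≠ 9 * (par c).1 ^ 2 := by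
  have h0 := (mem_Fm.1 hc).1
  obtain ⟨h1, h2⟩ := par_spec hc
  rw [h1, h2, disc_eq] at h0
  refine ⟨fun h => h0 ?_, fun h => h0 ?_⟩
  · rw [h]
    ring
  · rw [h]
    ring

lemma df_bd (H : ℕ) (c : ℤ × ℤ) (hc : c ∈ Fm H) :
    ((df c).1 ≠ 0 ∧ (df c).2 ≠ 0 ∧ (df c).1 ≠ (df c).2) ∧
      (df c).1.natAbs ^ 6 ≤ 14 ^ 6 * H ∧ (df c).2.natAbs ^ 6 ≤ 14 ^ 6 * H := by
  obtain ⟨h1, h2⟩ := par_ne hc
  obtain ⟨h3, h4⟩ := par_spec hc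
  obtain ⟨-, g1, g2, -⟩ := mem_Fm.1 hc
  rw [h3] at g1
  rw [h4] at g2
  have h5 : (3 * (par c).1 + 2 * (par c).2) * (3 * (par c).1 - 2 * (par c).2) ≠ 0 := by
    intro h
    apply h2
    linear_combination -h
  refine ⟨⟨left_ne_zero_of_mul h5, right_ne_zero_of_mul h5, fun h => h1 ?_⟩, bd_eq g1 g2⟩
  have h6 : 3 * (par c).1 + 2 * (par c).2 = 3 * (par c).1 - 2 * (par c).2 := h
  omega

end Pool.Agent.Q17.IG
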