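import Mathlib
import Pool.Agent.Q17.IG.Fam

/-! Rational cyclic subgroups of order 4. -/

set_option autoImplicit false

attribute [-instance] DivisionRing.toRatAlgebra

namespace Pool.Agent.Q17.IG

open WeierstrassCurve

/-- points of order four -/
lemma four_iff {L : Type} [Field L] [CharZero L] [DecidableEq L] {W : WeierstrassCurve.Affine L}
    (h1 : W.a₁ = 0) (h2 : W.a₂ = 0) (h3 : W.a₃ = 0) {x y : L} (h : W.Nonsingular x y) :
    ((Affine.Point.some x y h + Affine.Point.some x y h : W.Point) ≠ 0 ∧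
      (Affine.Point.some x y h + Affine.Point.some x y h : W.Point) +
        (Affine.Point.some x y h + Affine.Point.some x y h) = 0) ↔
    y ≠ 0 ∧ ∃ e : L, e ^ 3 + W.a₄ * e + W.a₆ = 0 ∧ (x - e) ^ 2 = 3 * e ^ 2 + W.a₄ := by
  have hneg : ∀ x' y' : L, W.negY x' y' = -y' := by
    intro x' y'
    rw [Affine.negY, h1, h3]
    ring
  have heq : ∀ {x' y' : L}, W.Nonsingular x' y' → y' ^ 2 = x' ^ 3 + W.a₄ * x' + W.a₆ := by
    intro x' y' h'
    have := (Affine.equation_iff ..).1 h'.1
    rw [h1, h2, h3] at this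
    linear_combination this
  by_cases hy : y = 0
  · constructor
    · rintro ⟨h4, -⟩
      exfalso
      apply h4
      exact Affine.Point.add_self_of_Y_eq (by rw [hneg, hy, neg_zero])
    · rintro ⟨h4, -⟩
      exact absurd hy h4
  have hyn : y ≠ W.negY x y := by
    rw [hneg]
    intro h4
    apply hy
    have : (2 : L) * y = 0 := by linear_combination h4
    exact (mul_eq_zero.1 this).resolve_left two_ne_zero
  rw [Affine.Point.add_self_of_Y_ne hyn]
  obtain ⟨l, hl⟩ : ∃ l : L, l = W.slope x x y y := ⟨_, rfl⟩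
  have hl2 : l * (2 * y) = 3 * x ^ 2 + W.a₄ := by
    rw [hl, Affine.slope_of_Y_ne rfl hyn, hneg, h1, h2]
    have : y - -y ≠ 0 := by
      rw [sub_neg_eq_add, ← two_mul]
      exact mul_ne_zero two_ne_zero hy
    field_simp
    ring
  have hX : W.addX x x (W.slope x x y y) = l ^ 2 - 2 * x := by
    rw [← hl, Affine.addX, h1, h2]
    ring
  have hY : W.addY x x y (W.slope x x y y) = -(l * (l ^ 2 - 2 * x - x) + y) := by
    rw [Affine.addY, Affine.negAddY, hneg, hX, ← hl]
  have hns := W.nonsingular_add h h fun hxy => hyn hxy.right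
  have hyy := heq h
  constructor
  · rintro ⟨-, h5⟩
    have h6 : W.addY x x y (W.slope x x y y) = 0 := by
      by_contra hne
      have h7 : W.addY x x y (W.slope x x y y) ≠
          W.negY (W.addX x x (W.slope x x y y)) (W.addY x x y (W.slope x x y y)) := by
        rw [hneg]
        intro h4
        apply hne
        have : (2 : L) * W.addY x x y (W.slope x x y y) = 0 := by linear_combination h4
        exact (mul_eq_zero.1 this).resolve_left two_ne_zero
      rw [Affine.Point.add_self_of_Y_ne h7] at h5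
      exact absurd h5 (by simp)
    refine ⟨hy, l ^ 2 - 2 * x, ?_, ?_⟩
    · have h7 := heq hns
      rw [h6, hX] at h7
      linear_combination -h7
    · rw [hY] at h6
      have h7 := heq hns
      rw [hY, h6, hX] at h7
      obtain ⟨e, he⟩ : ∃ e : L, e = l ^ 2 - 2 * x := ⟨_, rfl⟩
      rw [← he] at h6 h7 ⊢
      have h8 : l * (x - e) = y := by linear_combination h6
      have hxe : x - e ≠ 0 := by
        intro h9
        rw [h9, mul_zero] at h8
        exact hy h8.symm
      apply mul_left_cancel₀ hxe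
      have h9 : (3 * x ^ 2 + W.a₄) * (x - e) = 2 * y ^ 2 := by
        rw [← hl2, ← h8]
        ring
      linear_combination h9 + 2 * hyy - 2 * h7
  · rintro ⟨-, e, he, hq⟩
    have h4 : W.a₄ = (x - e) ^ 2 - 3 * e ^ 2 := by linear_combination -hq
    have hyy' : y ^ 2 = (x - e) ^ 2 * (2 * x + e) := by
      rw [h4] at he hyy
      linear_combination hyy + he
    have hxe : x - e ≠ 0 := by
      intro h9
      rw [h9] at hyy'
      apply hy
      exact pow_eq_zero_iff (n := 2) (by norm_num) |>.1 (by linear_combination hyy')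
    have h2x : 2 * x + e ≠ 0 := by
      intro h9
      rw [h9] at hyy'
      apply hy
      exact pow_eq_zero_iff (n := 2) (by norm_num) |>.1 (by linear_combination hyy')
    have hly : l * y = (2 * x + e) * (x - e) := by
      have : (2 : L) * (l * y) = 2 * ((2 * x + e) * (x - e)) := by
        rw [h4] at hl2
        linear_combination hl2
      exact mul_left_cancel₀ two_ne_zero this
    have hll : l ^ 2 = 2 * x + e := by
      have : (l * y) ^ 2 = ((2 * x + e) * (x - e)) ^ 2 := by rw [hly]
      have h9 : (y ^ 2) * l ^ 2 = y ^ 2 * (2 * x + e) := by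
        linear_combination this - (2 * x + e) * hyy'
      exact mul_left_cancel₀ (pow_ne_zero 2 hy) h9
    have hlx : l * (x - e) = y := by
      have h9 : y * (l * (x - e)) = y * y := by
        linear_combination (x - e) * hly - hyy'
      exact mul_left_cancel₀ hy h9
    have hY0 : W.addY x x y (W.slope x x y y) = 0 := by
      rw [hY, hll]
      linear_combination hlx
    refine ⟨by simp, ?_⟩
    exact Affine.Point.add_self_of_Y_eq (by rw [hneg, hY0, neg_zero])

/-- the algebraic numbers -/
abbrev QQ : Type := AlgebraicClosure ℚ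

/-- the curve `y² = x³ + A x + B` over `ℚ` -/
def EC (A B : ℤ) : WeierstrassCurve ℚ := ⟨0, 0, 0, (A : ℚ), (B : ℚ)⟩

open Classical in
/-- `y² = x³ + A x + B` has a point `P` of order 4 over the algebraic numbers such that `σ P = P` or
`σ P = -P` for all automorphisms `σ`, that is, a rational cyclic subgroup of order 4 -/
def Cyclic4 (A B : ℤ) : Prop :=
  ∃ P : ((EC A B).baseChange QQ).toAffine.Point, P + P ≠ 0 ∧ (P + P) + (P + P) = 0 ∧
    ∀ σ : QQ ≃ₐ[ℚ] QQ,
      Affine.Point.map (W' := (EC A B).toAffine) (σ : QQ →ₐ[ℚ] QQ) P = P ∨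
      Affine.Point.map (W' := (EC A B).toAffine) (σ : QQ →ₐ[ℚ] QQ) P = -P

lemma int_of_rat {x : ℚ} {a b c : ℤ} (h : x ^ 3 + a * x ^ 2 + b * x + c = 0) :
    ∃ n : ℤ, (n : ℚ) = x := by
  have h1 : IsIntegral ℤ x := by
    refine ⟨Polynomial.X ^ 3 + (Polynomial.C a * Polynomial.X ^ 2 + Polynomial.C b * Polynomial.X +
      Polynomial.C c), ?_, ?_⟩
    · apply Polynomial.monic_X_pow_add
      compute_degree!
    · have e1 : ∀ m : ℤ, algebraMap ℤ ℚ m = (m : ℚ) := fun m => rfl
      rw [Polynomial.eval₂_add, Polynomial.eval₂_add, Polynomial.eval₂_add, Polynomial.eval₂_mul,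
        Polynomial.eval₂_mul, Polynomial.eval₂_pow, Polynomial.eval₂_pow, Polynomial.eval₂_X,
        Polynomial.eval₂_C, Polynomial.eval₂_C, Polynomial.eval₂_C, e1, e1, e1]
      linear_combination h
  obtain ⟨n, hn⟩ := IsIntegrallyClosed.isIntegral_iff.1 h1
  exact ⟨n, hn⟩

/-- **rational cyclic subgroups of order 4** -/
theorem cyclic4_iff {A B : ℤ} (hD : 4 * A ^ 3 + 27 * B ^ 2 ≠ 0) : Cyclic4 A B ↔ Cyc (A, B) := by
  classical
  have a1 : ((EC A B).baseChange QQ).toAffine.a₁ = 0 := map_zero _
  have a2 : ((EC A B).baseChange QQ).toAffine.a₂ = 0 := map_zero _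
  have a3 : ((EC A B).baseChange QQ).toAffine.a₃ = 0 := map_zero _
  have a4 : ((EC A B).baseChange QQ).toAffine.a₄ = (A : QQ) := map_intCast _ _
  have a6 : ((EC A B).baseChange QQ).toAffine.a₆ = (B : QQ) := map_intCast _ _
  constructor
  · rintro ⟨P, hP1, hP2, hP3⟩
    rcases P with _ | ⟨x, y, h⟩
    · exact absurd (add_zero _) hP1
    obtain ⟨hy, e, he, hq⟩ := (four_iff a1 a2 a3 h).1 ⟨hP1, hP2⟩
    rw [a4, a6] at he
    rw [a4] at hq
    have hyy : y ^ 2 = x ^ 3 + A * x + B := by
      have := (Affine.equation_iff ..).1 h.1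
      rw [a1, a2, a3, a4, a6] at this
      linear_combination this
    have hfix : ∀ σ : QQ ≃ₐ[ℚ] QQ, σ x = x := by
      intro σ
      rcases hP3 σ with h1 | h1
      · rw [Affine.Point.map_some, Affine.Point.some.injEq] at h1
        exact h1.1
      · rw [Affine.Point.map_some, Affine.Point.neg_some, Affine.Point.some.injEq] at h1
        exact h1.1
    have hgal : IsGalois ℚ QQ := IsAlgClosure.isGalois ℚ QQ
    have hx : x ∈ (⊥ : IntermediateField ℚ QQ) := (InfiniteGalois.mem_bot_iff_fixed x).2 hfix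
    obtain ⟨X, hX⟩ := IntermediateField.mem_bot.1 hx
    have hX' : x = ((X : ℚ) : QQ) := by
      rw [← hX]
      exact (eq_ratCast (algebraMap ℚ QQ) X)
    -- the root is rational
    have hey : e * (4 * y ^ 2) = (3 * x ^ 2 + A) ^ 2 - 2 * x * (4 * y ^ 2) := by
      have h4 : (A : QQ) = (x - e) ^ 2 - 3 * e ^ 2 := by linear_combination -hq
      rw [h4] at he hyy ⊢
      linear_combination (4 * e + 8 * x) * (hyy + he)
    have hyX : y ^ 2 = ((X ^ 3 + A * X + B : ℚ) : QQ) := by
      rw [hyy, hX']
      push_cast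
      ring
    have hY0 : (X ^ 3 + A * X + B : ℚ) ≠ 0 := by
      intro h0
      rw [h0, Rat.cast_zero] at hyX
      exact hy (pow_eq_zero_iff (n := 2) (by norm_num) |>.1 hyX)
    obtain ⟨R, hR⟩ : ∃ R : ℚ, R = (3 * X ^ 2 + A) ^ 2 / (4 * (X ^ 3 + A * X + B)) - 2 * X :=
      ⟨_, rfl⟩
    have heR : e = (R : QQ) := by
      have h5 : (4 : QQ) * y ^ 2 ≠ 0 := mul_ne_zero (by norm_num) (pow_ne_zero 2 hy)
      apply mul_right_cancel₀ h5
      rw [hey, hyX, hX', hR]
      have h6 : R * (4 * (X ^ 3 + A * X + B)) = (3 * X ^ 2 + A) ^ 2 -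
          2 * X * (4 * (X ^ 3 + A * X + B)) := by
        rw [hR, sub_mul, div_mul_cancel₀ _ (mul_ne_zero (by norm_num) hY0)]
      rw [← hR]
      have h7 : ((R * (4 * (X ^ 3 + A * X + B)) : ℚ) : QQ) = (((3 * X ^ 2 + A) ^ 2 -
          2 * X * (4 * (X ^ 3 + A * X + B)) : ℚ) : QQ) := by rw [h6]
      push_cast at h7 ⊢
      linear_combination -h7
    have he' : R ^ 3 + A * R + B = 0 := by
      rw [heR] at he
      have : ((R ^ 3 + A * R + B : ℚ) : QQ) = ((0 : ℚ) : QQ) := by
        push_cast
        exact he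
      exact_mod_cast this
    obtain ⟨n, hn⟩ := int_of_rat (x := R) (a := 0) (b := A) (c := B) (by
      push_cast
      linear_combination he')
    have hq' : (X - R) ^ 2 = 3 * R ^ 2 + A := by
      rw [heR, hX'] at hq
      have : (((X - R) ^ 2 : ℚ) : QQ) = ((3 * R ^ 2 + A : ℚ) : QQ) := by
        push_cast
        exact hq
      exact_mod_cast this
    have hsq : IsSquare (3 * n ^ 2 + A) := by
      have h8 : IsSquare (((3 * n ^ 2 + A : ℤ)) : ℚ) := by
        refine ⟨X - R, ?_⟩
        push_cast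
        rw [hn, ← sq, hq']
      exact Rat.isSquare_intCast_iff.1 h8
    obtain ⟨q, hqq⟩ := hsq
    refine ⟨n, q, ?_, ?_⟩
    · change A = q ^ 2 - 3 * n ^ 2
      linear_combination hqq
    · change B = 2 * n ^ 3 - q ^ 2 * n
      have h9 : (n : ℤ) ^ 3 + A * n + B = 0 := by
        rw [← hn] at he'
        exact_mod_cast he'
      linear_combination h9 - n * hqq
  · rintro ⟨e, q, hA, hB⟩
    change A = q ^ 2 - 3 * e ^ 2 at hA
    change B = 2 * e ^ 3 - q ^ 2 * e at hB
    have hD' := hD
    rw [hA, hB, disc_eq] at hD'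
    have hq0 : q ≠ 0 := fun h => hD' (by rw [h]; ring)
    have h9 : 2 * q + 3 * e ≠ 0 := by
      intro h
      apply hD'
      have : 4 * q ^ 2 - 9 * e ^ 2 = (2 * q + 3 * e) * (2 * q - 3 * e) := by ring
      rw [this, h]
      ring
    obtain ⟨y, hy⟩ := IsAlgClosed.exists_pow_nat_eq ((q : QQ) ^ 2 * (2 * q + 3 * e))
      (n := 2) (by norm_num)
    have hq0' : (q : QQ) ≠ 0 := by exact_mod_cast hq0
    have h9' : (2 * (q : QQ) + 3 * e) ≠ 0 := by exact_mod_cast h9
    have hy0 : y ≠ 0 := by
      intro h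
      rw [h] at hy
      exact mul_ne_zero (pow_ne_zero 2 hq0') h9' (by rw [← hy]; ring)
    have hns : ((EC A B).baseChange QQ).toAffine.Nonsingular ((e : QQ) + q) y := by
      rw [Affine.nonsingular_iff']
      refine ⟨?_, Or.inr ?_⟩
      · rw [Affine.equation_iff', a1, a2, a3, a4, a6, hA, hB]
        push_cast
        linear_combination hy
      · rw [a1, a3]
        intro h
        apply hy0
        have : (2 : QQ) * y = 0 := by linear_combination h
        exact (mul_eq_zero.1 this).resolve_left two_ne_zero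
    have hfour := (four_iff a1 a2 a3 hns).2 ⟨hy0, e, by
      rw [a4, a6, hA, hB]
      push_cast
      ring, by
      rw [a4, hA]
      push_cast
      ring⟩
    refine ⟨.some _ _ hns, hfour.1, hfour.2, fun σ => ?_⟩
    have hσx : σ ((e : QQ) + q) = (e : QQ) + q := by
      rw [map_add, map_intCast, map_intCast]
    have hσy : σ y = y ∨ σ y = -y := by
      apply sq_eq_sq_iff_eq_or_eq_neg.1
      rw [← map_pow, hy]
      simp only [map_mul, map_pow, map_add, map_intCast, map_ofNat]
    rcases hσy with h | h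
    · left
      rw [Affine.Point.map_some, Affine.Point.some.injEq]
      exact ⟨hσx, h⟩
    · right
      rw [Affine.Point.map_some, Affine.Point.neg_some, Affine.Point.some.injEq]
      refine ⟨hσx, ?_⟩
      rw [Affine.negY, a1, a3]
      refine h.trans ?_
      ring

end Pool.Agent.Q17.IG
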