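import Mathlib

/-! The map on the points of `y² = x³ + a x² + b x + c` given by the substitution
`x ↦ u² x + r`, `y ↦ u³ y`. -/

set_option autoImplicit false

namespace Pool.Agent.Q17.IG

open WeierstrassCurve

/-- `W'` is obtained from `W` by the substitution `x ↦ u² x + r`, `y ↦ u³ y` -/
structure Sb {F : Type} [Field F] (u r : F) (W W' : WeierstrassCurve F) : Prop where
  hu : u ≠ 0
  a1 : W.a₁ = 0
  a3 : W.a₃ = 0
  b1 : W'.a₁ = 0
  b3 : W'.a₃ = 0
  h2 : 3 * r + W'.a₂ = u ^ 2 * W.a₂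
  h4 : 3 * r ^ 2 + 2 * W'.a₂ * r + W'.a₄ = u ^ 4 * W.a₄
  h6 : r ^ 3 + W'.a₂ * r ^ 2 + W'.a₄ * r + W'.a₆ = u ^ 6 * W.a₆

section

variable {F : Type} [Field F] {u r : F} {W W' : WeierstrassCurve F} (S : Sb u r W W')

include S in
lemma Sb.e2 : W'.a₂ = u ^ 2 * W.a₂ - 3 * r := by linear_combination S.h2

include S in
lemma Sb.e4 : W'.a₄ = u ^ 4 * W.a₄ - 3 * r ^ 2 - 2 * (u ^ 2 * W.a₂ - 3 * r) * r := by
  have := S.h4
  rw [S.e2] at this
  linear_combination this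

include S in
lemma Sb.e6 : W'.a₆ = u ^ 6 * W.a₆ - r ^ 3 - (u ^ 2 * W.a₂ - 3 * r) * r ^ 2 -
    (u ^ 4 * W.a₄ - 3 * r ^ 2 - 2 * (u ^ 2 * W.a₂ - 3 * r) * r) * r := by
  have := S.h6
  rw [S.e2, S.e4] at this
  linear_combination this

include S in
lemma Sb.eqn_iff (x y : F) : W'.toAffine.Equation (u ^ 2 * x + r) (u ^ 3 * y) ↔
    W.toAffine.Equation x y := by
  have hu := S.hu
  rw [Affine.equation_iff, Affine.equation_iff, S.a1, S.a3, S.b1, S.b3, S.e2, S.e4, S.e6]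
  constructor
  · intro h
    apply mul_left_cancel₀ (pow_ne_zero 6 hu)
    linear_combination h
  · intro h
    linear_combination u ^ 6 * h

include S in
lemma Sb.negY_eq (x y : F) : W'.toAffine.negY (u ^ 2 * x + r) (u ^ 3 * y) =
    u ^ 3 * (W.toAffine.negY x y) := by
  simp only [Affine.negY, S.a1, S.a3, S.b1, S.b3]
  ring

include S in
lemma Sb.ns_iff (x y : F) : W'.toAffine.Nonsingular (u ^ 2 * x + r) (u ^ 3 * y) ↔
    W.toAffine.Nonsingular x y := by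
  have hu := S.hu
  rw [Affine.nonsingular_iff, Affine.nonsingular_iff, S.eqn_iff, S.a1, S.a3, S.b1, S.b3, S.e2,
    S.e4]
  have e1 : ((0 : F) * (u ^ 3 * y) ≠ 3 * (u ^ 2 * x + r) ^ 2 +
      2 * (u ^ 2 * W.a₂ - 3 * r) * (u ^ 2 * x + r) +
      (u ^ 4 * W.a₄ - 3 * r ^ 2 - 2 * (u ^ 2 * W.a₂ - 3 * r) * r)) ↔
      ((0 : F) * y ≠ 3 * x ^ 2 + 2 * W.a₂ * x + W.a₄) := by
    apply not_congr
    constructor
    · intro h
      apply mul_left_cancel₀ (pow_ne_zero 4 hu)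
      linear_combination h
    · intro h
      linear_combination u ^ 4 * h
  have e2 : (u ^ 3 * y ≠ -(u ^ 3 * y) - 0 * (u ^ 2 * x + r) - 0) ↔
      (y ≠ -y - 0 * x - 0) := by
    apply not_congr
    constructor
    · intro h
      apply mul_left_cancel₀ (pow_ne_zero 3 hu)
      linear_combination h
    · intro h
      linear_combination u ^ 3 * h
  rw [e1, e2]

variable [DecidableEq F]

include S in
lemma Sb.slope_eq (x₁ x₂ y₁ y₂ : F) :
    W'.toAffine.slope (u ^ 2 * x₁ + r) (u ^ 2 * x₂ + r) (u ^ 3 * y₁) (u ^ 3 * y₂) =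
      u * (W.toAffine.slope x₁ x₂ y₁ y₂) := by
  have hu := S.hu
  have hu3 : u ^ 3 ≠ 0 := pow_ne_zero _ hu
  have hu2 : u ^ 2 ≠ 0 := pow_ne_zero _ hu
  by_cases hx : x₁ = x₂
  · by_cases hy : y₁ = W.toAffine.negY x₂ y₂
    · rw [Affine.slope_of_Y_eq hx hy, Affine.slope_of_Y_eq (by rw [hx])
        (by rw [S.negY_eq, hy]), mul_zero]
    · have hy' : u ^ 3 * y₁ ≠ W'.toAffine.negY (u ^ 2 * x₂ + r) (u ^ 3 * y₂) := by
        rw [S.negY_eq]
        exact fun h => hy (mul_left_cancel₀ hu3 h)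
      rw [Affine.slope_of_Y_ne hx hy, Affine.slope_of_Y_ne (by rw [hx]) hy',
        S.negY_eq]
      have e1 : 3 * (u ^ 2 * x₁ + r) ^ 2 + 2 * W'.a₂ * (u ^ 2 * x₁ + r) + W'.a₄ -
          W'.a₁ * (u ^ 3 * y₁) =
          (u * (3 * x₁ ^ 2 + 2 * W.a₂ * x₁ + W.a₄ - W.a₁ * y₁)) * u ^ 3 := by
        rw [S.a1, S.b1, S.e2, S.e4]
        ring
      have e2 : u ^ 3 * y₁ - u ^ 3 * W.toAffine.negY x₁ y₁ =
          (y₁ - W.toAffine.negY x₁ y₁) * u ^ 3 := by ring
      rw [e1, e2, mul_div_mul_right _ _ hu3, mul_div_assoc]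
  · have hx' : u ^ 2 * x₁ + r ≠ u ^ 2 * x₂ + r := fun h => hx
      (mul_left_cancel₀ hu2 (add_right_cancel h))
    rw [Affine.slope_of_X_ne hx, Affine.slope_of_X_ne hx']
    have e1 : u ^ 2 * x₁ + r - (u ^ 2 * x₂ + r) = u ^ 2 * (x₁ - x₂) := by ring
    have hden : x₁ - x₂ ≠ 0 := sub_ne_zero.2 hx
    rw [e1]
    field_simp

include S in
omit [DecidableEq F] in
lemma Sb.addX_eq (x₁ x₂ l : F) :
    W'.toAffine.addX (u ^ 2 * x₁ + r) (u ^ 2 * x₂ + r) (u * l) =
      u ^ 2 * (W.toAffine.addX x₁ x₂ l) + r := by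
  simp only [Affine.addX, S.a1, S.b1, S.e2]
  ring

include S in
omit [DecidableEq F] in
lemma Sb.addY_eq (x₁ x₂ y₁ l : F) :
    W'.toAffine.addY (u ^ 2 * x₁ + r) (u ^ 2 * x₂ + r) (u ^ 3 * y₁) (u * l) =
      u ^ 3 * (W.toAffine.addY x₁ x₂ y₁ l) := by
  simp only [Affine.addY, Affine.negAddY, Affine.negY, Affine.addX, S.a1, S.a3, S.b1, S.b3, S.e2]
  ring

/-- the map on points -/
def Sb.tF : W.toAffine.Point → W'.toAffine.Point
  | 0 => 0
  | .some x y h => .some (u ^ 2 * x + r) (u ^ 3 * y) ((S.ns_iff x y).2 h)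

omit [DecidableEq F] in
lemma Sb.tF_zero : S.tF 0 = 0 := rfl

omit [DecidableEq F] in
lemma Sb.tF_some (x y : F) (h : W.toAffine.Nonsingular x y) :
    S.tF (.some x y h) = .some (u ^ 2 * x + r) (u ^ 3 * y) ((S.ns_iff x y).2 h) := rfl

lemma Sb.tF_add (P Q : W.toAffine.Point) : S.tF (P + Q) = S.tF P + S.tF Q := by
  have hu := S.hu
  have hu3 : u ^ 3 ≠ 0 := pow_ne_zero _ hu
  have hu2 : u ^ 2 ≠ 0 := pow_ne_zero _ hu
  match P, Q with
  | 0, Q => rw [zero_add, Sb.tF_zero, zero_add]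
  | .some x y h, 0 => rw [add_zero, Sb.tF_zero, add_zero]
  | .some x₁ y₁ h₁, .some x₂ y₂ h₂ =>
    rw [Sb.tF_some, Sb.tF_some]
    by_cases hxy : x₁ = x₂ ∧ y₁ = W.toAffine.negY x₂ y₂
    · rw [Affine.Point.add_of_Y_eq hxy.1 hxy.2,
        Affine.Point.add_of_Y_eq (by rw [hxy.1]) (by rw [hxy.2, S.negY_eq]),
        Sb.tF_zero]
    · have hxy' : ¬ (u ^ 2 * x₁ + r = u ^ 2 * x₂ + r ∧
          u ^ 3 * y₁ = W'.toAffine.negY (u ^ 2 * x₂ + r) (u ^ 3 * y₂)) := by
        rintro ⟨q1, q2⟩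
        apply hxy
        refine ⟨mul_left_cancel₀ hu2 (add_right_cancel q1), ?_⟩
        rw [S.negY_eq] at q2
        exact mul_left_cancel₀ hu3 q2
      rw [Affine.Point.add_some hxy, Affine.Point.add_some hxy', Sb.tF_some]
      rw [Affine.Point.some.injEq, S.slope_eq, S.addX_eq, S.addY_eq]
      exact ⟨rfl, rfl⟩

end

/-- the inverse substitution -/
lemma Sb.inv {F : Type} [Field F] {u r : F} {W W' : WeierstrassCurve F} (S : Sb u r W W') :
    Sb u⁻¹ (-(r / u ^ 2)) W' W where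
  hu := inv_ne_zero S.hu
  a1 := S.b1
  a3 := S.b3
  b1 := S.a1
  b3 := S.a3
  h2 := by
    have hu := S.hu
    rw [S.e2]
    field_simp
    ring
  h4 := by
    have hu := S.hu
    rw [S.e4]
    field_simp
    ring
  h6 := by
    have hu := S.hu
    rw [S.e6]
    field_simp
    ring

/-- base change -/
lemma Sb.map {F L : Type} [Field F] [Field L] {u r : F} {W W' : WeierstrassCurve F}
    (S : Sb u r W W') (f : F →+* L) : Sb (f u) (f r) (W.map f) (W'.map f) where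
  hu := (map_ne_zero f).2 S.hu
  a1 := by
    change f W.a₁ = 0
    rw [S.a1, map_zero]
  a3 := by
    change f W.a₃ = 0
    rw [S.a3, map_zero]
  b1 := by
    change f W'.a₁ = 0
    rw [S.b1, map_zero]
  b3 := by
    change f W'.a₃ = 0
    rw [S.b3, map_zero]
  h2 := by
    change 3 * f r + f W'.a₂ = f u ^ 2 * f W.a₂
    have := congrArg f S.h2
    simpa only [map_add, map_mul, map_pow, map_ofNat] using this
  h4 := by
    change 3 * f r ^ 2 + 2 * f W'.a₂ * f r + f W'.a₄ = f u ^ 4 * f W.a₄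
    have := congrArg f S.h4
    simpa only [map_add, map_mul, map_pow, map_ofNat] using this
  h6 := by
    change f r ^ 3 + f W'.a₂ * f r ^ 2 + f W'.a₄ * f r + f W'.a₆ = f u ^ 6 * f W.a₆
    have := congrArg f S.h6
    simpa only [map_add, map_mul, map_pow, map_ofNat] using this

/-- the composite with the inverse -/
lemma Sb.tF_inv {F : Type} [Field F] {u r : F} {W W' : WeierstrassCurve F} (S : Sb u r W W')
    (P : W.toAffine.Point) : S.inv.tF (S.tF P) = P := by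
  have hu := S.hu
  match P with
  | 0 => rfl
  | .some x y h =>
    rw [Sb.tF_some, Sb.tF_some, Affine.Point.some.injEq]
    constructor
    · field_simp
      ring
    · field_simp

end Pool.Agent.Q17.IG
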