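import Mathlib
import Pool.Agent.Q8.NS.Rk
import Pool.Agent.Q17.IG.Tra
import Pool.Agent.Q17.BF.One

/-! Base change of a curve with a rational cyclic subgroup of order 4 to a multiquadratic field: the
rank and the corank are bounded by the 2-Selmer groups of the twists of the 2-isogenous curve with
full rational 2-torsion. -/

set_option autoImplicit false

namespace Pool.Agent.Q17.IG

open Finset WeierstrassCurve

open Pool.Agent.TH841.SH.D (Pt act Sha)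
open Pool.Agent.Y676.IS (NH cls cls_surj cls_add sha_cls)
open Pool.Agent.TH841.LS (WI)
open Pool.Agent.TH841.PT (EQ bd_EQ)
open Pool.Agent.W307.RT (Sh)
open Pool.Agent.W307.SE (Sel SN)
open Pool.Agent.TH841.NF (EF Gen tw)

lemma some_congr {F : Type} [Field F] {W : WeierstrassCurve.Affine F} {x y x' y' : F}
    (h : W.Nonsingular x y) (h' : W.Nonsingular x' y') (hx : x = x') (hy : y = y') :
    (Affine.Point.some x y h : W.Point) = Affine.Point.some x' y' h' := by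
  subst hx hy
  rfl

/-- the homomorphism over all fields given by a substitution -/
noncomputable def nh {u r : ℚ} {W W' : WeierstrassCurve ℚ} (S : Sb u r W W') : NH W W' where
  f L _ _ := AddMonoidHom.mk' (S.map (algebraMap ℚ L)).tF
    (fun P Q => @Sb.tF_add L _ _ _ _ _ (S.map (algebraMap ℚ L)) (Classical.decEq L) P Q)
  nat F L _ _ _ _ g P := by
    rcases P with _ | ⟨x, y, hxy⟩
    · rfl
    · apply some_congr
      · rw [map_add, map_mul, map_pow, g.commutes, g.commutes]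
      · rw [map_mul, map_pow, g.commutes]

lemma nh_inv {u r : ℚ} {W W' : WeierstrassCurve ℚ} (S : Sb u r W W') (L : Type) [Field L]
    [Algebra ℚ L] (P : Pt W L) : (nh S.inv).f L ((nh S).f L P) = P := by
  rcases P with _ | ⟨x, y, hxy⟩
  · rfl
  · have hu : (algebraMap ℚ L u) ≠ 0 := (map_ne_zero _).2 S.hu
    apply some_congr
    · rw [map_inv₀, map_neg, map_div₀, map_pow]
      field_simp
      ring
    · rw [map_inv₀]
      field_simp

/-- composition -/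
noncomputable def NHcomp {W W' W'' : WeierstrassCurve ℚ} (g : NH W' W'') (f : NH W W') :
    NH W W'' where
  f L _ _ := (g.f L).comp (f.f L)
  nat F L _ _ _ _ i P := by
    change act W'' i (g.f F (f.f F P)) = g.f L (f.f L (act W i P))
    rw [g.nat, f.nat]

/-- the homomorphisms between the curve and the isogenous curve with full 2-torsion -/
theorem exists_two {A B e q D : ℤ} (hA : A = q ^ 2 - 3 * e ^ 2) (hB : B = 2 * e ^ 3 - q ^ 2 * e)
    (hq : q ≠ 0) (h9 : 4 * q ^ 2 ≠ 9 * e ^ 2) (hD : D ≠ 0) :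
    ∃ (θ : NH (Sh (D ^ 2 * A) (D ^ 3 * B)) (EQ (D * (3 * e + 2 * q)) (D * (3 * e - 2 * q))))
      (θ' : NH (EQ (D * (3 * e + 2 * q)) (D * (3 * e - 2 * q))) (Sh (D ^ 2 * A) (D ^ 3 * B))),
      ∀ (L : Type) [Field L] [Algebra ℚ L] (P : Pt (Sh (D ^ 2 * A) (D ^ 3 * B)) L),
        θ'.f L (θ.f L P) = P + P := by
  have h1 : D * (3 * e + 2 * q) ≠ D * (3 * e - 2 * q) := by
    intro h
    have h2 := mul_left_cancel₀ hD h
    apply hq
    omega
  have h9' : (3 * e + 2 * q) * (3 * e - 2 * q) ≠ 0 := by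
    intro h
    apply h9
    linear_combination -h
  have h2 : D * (3 * e + 2 * q) ≠ 0 := mul_ne_zero hD (left_ne_zero_of_mul h9')
  have h3 : D * (3 * e - 2 * q) ≠ 0 := mul_ne_zero hD (right_ne_zero_of_mul h9')
  obtain ⟨ψ, φ, e1, e2, -⟩ := Pool.Agent.Y676.IS.exists_NH h1 h2 h3
  have S : Sb (2 : ℚ) (-(4 * (D : ℚ) * e)) (Sh (D ^ 2 * A) (D ^ 3 * B))
      (WI (D * (3 * e + 2 * q)) (D * (3 * e - 2 * q))) := by
    refine ⟨two_ne_zero, rfl, rfl, rfl, rfl, ?_, ?_, ?_⟩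
    · change 3 * (-(4 * (D : ℚ) * e)) + 2 * (((D * (3 * e + 2 * q) : ℤ) : ℚ) +
        ((D * (3 * e - 2 * q) : ℤ) : ℚ)) = 2 ^ 2 * 0
      push_cast
      ring
    · change 3 * (-(4 * (D : ℚ) * e)) ^ 2 + 2 * (2 * (((D * (3 * e + 2 * q) : ℤ) : ℚ) +
        ((D * (3 * e - 2 * q) : ℤ) : ℚ))) * (-(4 * (D : ℚ) * e)) +
        (((D * (3 * e + 2 * q) : ℤ) : ℚ) - ((D * (3 * e - 2 * q) : ℤ) : ℚ)) ^ 2 =
        2 ^ 4 * ((D ^ 2 * A : ℤ) : ℚ)
      rw [hA]
      push_cast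
      ring
    · change (-(4 * (D : ℚ) * e)) ^ 3 + (2 * (((D * (3 * e + 2 * q) : ℤ) : ℚ) +
        ((D * (3 * e - 2 * q) : ℤ) : ℚ))) * (-(4 * (D : ℚ) * e)) ^ 2 +
        (((D * (3 * e + 2 * q) : ℤ) : ℚ) - ((D * (3 * e - 2 * q) : ℤ) : ℚ)) ^ 2 *
        (-(4 * (D : ℚ) * e)) + 0 = 2 ^ 6 * ((D ^ 3 * B : ℤ) : ℚ)
      rw [hB]
      push_cast
      ring
  refine ⟨NHcomp ψ (nh S), NHcomp (nh S.inv) φ, fun L _ _ P => ?_⟩
  change (nh S.inv).f L (φ.f L (ψ.f L ((nh S).f L P))) = P + P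
  rw [e1, map_add]
  rw [nh_inv]

/-- on the Tate-Shafarevich groups -/
lemma sha_two {W W' : WeierstrassCurve ℚ} (θ : NH W W') (θ' : NH W' W)
    (h : ∀ (L : Type) [Field L] [Algebra ℚ L] (P : Pt W L), θ'.f L (θ.f L P) = P + P) (x : Sha W)
    (hx : θ.sha x = 0) : x + x = 0 := by
  have h1 : θ'.sha (θ.sha x) = x + x := by
    obtain ⟨c, rfl⟩ := cls_surj x
    rw [sha_cls, sha_cls, ← cls_add]
    apply congrArg
    apply Subtype.ext
    funext σ
    exact h _ (c.1 σ)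
  rw [← h1, hx, map_zero]

lemma rank_le' {M N : Type} [AddCommGroup M] [AddCommGroup N] (f : M →+ N)
    (hf : ∀ x, f x = 0 → x + x = 0) : Module.rank ℤ M ≤ Module.rank ℤ N := by
  let F : M →ₗ[ℤ] N := f.toIntLinearMap
  have h1 : Module.rank ℤ (LinearMap.ker F) = 0 := by
    rw [rank_eq_zero_iff]
    rintro ⟨x, hx⟩
    refine ⟨2, two_ne_zero, ?_⟩
    apply Subtype.ext
    change (2 : ℤ) • x = 0
    rw [two_smul]
    exact hf x hx
  have h2 := rank_quotient_add_rank_of_isDomain (LinearMap.ker F)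
  rw [h1, add_zero] at h2
  have h3 : Module.rank ℤ (M ⧸ LinearMap.ker F) ≤ Module.rank ℤ N :=
    LinearMap.rank_le_of_injective ((LinearMap.ker F).liftQ F le_rfl) (by
      rw [← LinearMap.ker_eq_bot]
      exact Submodule.ker_liftQ_eq_bot _ _ _ le_rfl)
  rwa [h2] at h3

/-- on the rational points -/
lemma pt_two {W W' : WeierstrassCurve ℚ} (θ : NH W W') (θ' : NH W' W)
    (h : ∀ (L : Type) [Field L] [Algebra ℚ L] (P : Pt W L), θ'.f L (θ.f L P) = P + P) :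
    Module.rank ℤ W.toAffine.Point ≤ Module.rank ℤ W'.toAffine.Point := by
  obtain ⟨e1⟩ := Pool.Agent.Q8.NS.exists_bcE W
  obtain ⟨e2⟩ := Pool.Agent.Q8.NS.exists_bcE W'
  refine rank_le' ((e2.toAddMonoidHom.comp (θ.f ℚ)).comp e1.symm.toAddMonoidHom) fun x hx => ?_
  have h2 : e2 (θ.f ℚ (e1.symm x)) = 0 := hx
  have h3 : θ.f ℚ (e1.symm x) = 0 := (map_eq_zero_iff e2 e2.injective).1 h2
  have h4 := h ℚ (e1.symm x)
  rw [h3, map_zero, ← map_add] at h4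
  exact (map_eq_zero_iff e1.symm e1.symm.injective).1 h4.symm

open Pool.Agent.TH841.NF (div_bound thS thS_ker sc_EF tw_Sh tor2) in
/-- **one curve over one field** -/
theorem one_curve4 {K : Type} [Field K] [NumberField K] {s : ℕ} {d : Fin s → ℤ}
    (hK : Gen K d) (hd : ∀ i, d i ≠ 0) {A B e q : ℤ} (hA : A = q ^ 2 - 3 * e ^ 2)
    (hB : B = 2 * e ^ 3 - q ^ 2 * e) (hq : q ≠ 0) (h9 : 4 * q ^ 2 ≠ 9 * e ^ 2) {n : ℕ}
    (hn : Pool.Agent.TH841.NF.D.HasDiv (EF A B K) n) :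
    (2 : ℝ) ^ (Pool.Agent.TH841.NF.D.rk (EF A B K) + n) ≤
      (Pool.Agent.Q17.BF.PS d (3 * e + 2 * q) (3 * e - 2 * q) : ℕ) := by
  classical
  obtain ⟨x, hx, hgen⟩ := hK
  have hD : 4 * A ^ 3 + 27 * B ^ 2 ≠ 0 := by
    rw [hA, hB]
    have h1 : 4 * (q ^ 2 - 3 * e ^ 2) ^ 3 + 27 * (2 * e ^ 3 - q ^ 2 * e) ^ 2 =
      q ^ 4 * (4 * q ^ 2 - 9 * e ^ 2) := by ring
    rw [h1]
    exact mul_ne_zero (pow_ne_zero 4 hq) (sub_ne_zero.2 h9)
  have hne : ∀ T : Finset (Fin s), ∏ i ∈ T, d i ≠ 0 := fun T =>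
    prod_ne_zero_iff.2 fun i _ => hd i
  have h9' : (3 * e + 2 * q) * (3 * e - 2 * q) ≠ 0 := by
    intro h
    apply h9
    linear_combination -h
  have hα : 3 * e + 2 * q ≠ 0 := left_ne_zero_of_mul h9'
  have hβ : 3 * e - 2 * q ≠ 0 := right_ne_zero_of_mul h9'
  have hαβ : 3 * e + 2 * q ≠ 3 * e - 2 * q := by
    intro h
    apply hq
    omega
  obtain ⟨α, hα'⟩ : ∃ α : ℤ, α = 3 * e + 2 * q := ⟨_, rfl⟩
  obtain ⟨β, hβ'⟩ : ∃ β : ℤ, β = 3 * e - 2 * q := ⟨_, rfl⟩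
  have hdq : ∀ i, (d i : ℚ) ≠ 0 := fun i => by exact_mod_cast hd i
  have hxq : ∀ i, x i ^ 2 = algebraMap ℚ K (d i : ℚ) := fun i => by
    rw [hx i, map_intCast]
  have he : Nonempty (AlgebraicClosure K ≃+* Pool.Agent.TH841.NF.Qb) := by
    have h1 : Algebra.IsAlgebraic ℚ (AlgebraicClosure K) := Algebra.IsAlgebraic.trans ℚ K _
    have h2 : IsAlgClosure ℚ (AlgebraicClosure K) := ⟨inferInstance, h1⟩
    exact ⟨(IsAlgClosure.equiv ℚ (AlgebraicClosure K) (AlgebraicClosure ℚ)).toRingEquiv⟩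
  obtain ⟨e'⟩ := he
  obtain ⟨g, hg⟩ := hn
  -- the maps
  have hex0 : ∀ T : Finset (Fin s), ∃ (θ : NH (Sh ((∏ i ∈ T, d i) ^ 2 * A) ((∏ i ∈ T, d i) ^ 3 * B))
      (EQ ((∏ i ∈ T, d i) * α) ((∏ i ∈ T, d i) * β)))
      (θ' : NH (EQ ((∏ i ∈ T, d i) * α) ((∏ i ∈ T, d i) * β))
        (Sh ((∏ i ∈ T, d i) ^ 2 * A) ((∏ i ∈ T, d i) ^ 3 * B))),
      ∀ (L : Type) [Field L] [Algebra ℚ L]
        (P : Pt (Sh ((∏ i ∈ T, d i) ^ 2 * A) ((∏ i ∈ T, d i) ^ 3 * B)) L),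
        θ'.f L (θ.f L P) = P + P := by
    intro T
    rw [hα', hβ']
    exact exists_two hA hB hq h9 (hne T)
  have hex : ∀ T : Finset (Fin s), ∃ F : Sha (tw (∏ i ∈ T, (d i : ℚ)) (Sh A B)) →+
      Sha (EQ ((∏ i ∈ T, d i) * α) ((∏ i ∈ T, d i) * β)), ∀ y, F y = 0 → y + y = 0 := by
    intro T
    rw [tw_Sh]
    obtain ⟨θ, θ', h⟩ := hex0 T
    exact ⟨θ.sha, sha_two θ θ' h⟩
  choose Φ hΦ using hex
  have hbd : ∀ T : Finset (Fin s), Pool.Agent.TH841.SH.Bd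
      (EQ ((∏ i ∈ T, d i) * α) ((∏ i ∈ T, d i) * β))
      (SN ((∏ i ∈ T, d i) * α) ((∏ i ∈ T, d i) * β)) := fun T => by
    apply bd_EQ
    · rw [hα']
      exact mul_ne_zero (hne T) hα
    · rw [hβ']
      exact mul_ne_zero (hne T) hβ
    · rw [hα', hβ']
      exact fun h => hαβ (mul_left_cancel₀ (hne T) h)
  have hfg : ∀ T : Finset (Fin s), Module.Finite ℤ
      (EQ ((∏ i ∈ T, d i) * α) ((∏ i ∈ T, d i) * β)).toAffine.Point := fun T => by
    apply Pool.Agent.Q8.NS.fg_EQ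
    · rw [hα', hβ']
      exact fun h => hαβ (mul_left_cancel₀ (hne T) h)
    · rw [hα']
      exact mul_ne_zero (hne T) hα
    · rw [hβ']
      exact mul_ne_zero (hne T) hβ
  have hfin : ∀ T : Finset (Fin s), Finite {y : Sha (EQ ((∏ i ∈ T, d i) * α)
      ((∏ i ∈ T, d i) * β)) // y + y = 0} := by
    intro T
    have := (hbd T).1
    exact Finite.of_equiv _ (tor2 _).symm
  have h1 := div_bound (fun T => (Φ T).comp (thS (sc_EF A B K) rfl rfl e' hxq hdq hgen T)) (s + 1)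
    (fun y hy => by
      have a1 : ∀ T, thS (sc_EF A B K) rfl rfl e' hxq hdq hgen T (y + y) = 0 := by
        intro T
        rw [map_add]
        exact hΦ T _ (hy T)
      have a2 := thS_ker (sc_EF A B K) rfl rfl e' hxq hdq hgen (y + y) a1
      rw [pow_succ, mul_smul, two_nsmul]
      exact a2) hfin n g hg
  have h2 : ∀ T : Finset (Fin s), Nat.card {y : Sha (EQ ((∏ i ∈ T, d i) * α)
      ((∏ i ∈ T, d i) * β)) // y + y = 0} =
      Nat.card {y : Pool.Agent.W262.SH.Sha (EQ ((∏ i ∈ T, d i) * α)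
        ((∏ i ∈ T, d i) * β)) // y + y = 0} := fun T => Nat.card_congr (tor2 _)
  rw [Finset.prod_congr rfl fun T _ => h2 T] at h1
  have h3 := Pool.Agent.W307.RS.mq2 K s x d hx hd hgen A B hD
  have h4 : ∀ T : Finset (Fin s), Module.rank ℤ
      (Sh ((∏ i ∈ T, d i) ^ 2 * A) ((∏ i ∈ T, d i) ^ 3 * B)).toAffine.Point ≤
      ((Module.finrank ℤ (EQ ((∏ i ∈ T, d i) * α)
        ((∏ i ∈ T, d i) * β)).toAffine.Point : ℕ) : Cardinal) := by
    intro T
    obtain ⟨θ, θ', h⟩ := hex0 T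
    have := hfg T
    rw [Module.finrank_eq_rank]
    exact pt_two θ θ' h
  have h5 : Pool.Agent.TH841.NF.D.rk (EF A B K) ≤ ∑ T : Finset (Fin s), Module.finrank ℤ
      (EQ ((∏ i ∈ T, d i) * α) ((∏ i ∈ T, d i) * β)).toAffine.Point := by
    have h6 : ∑ T : Finset (Fin s), Module.rank ℤ (Sh ((∏ i ∈ T, d i) ^ 2 * A)
        ((∏ i ∈ T, d i) ^ 3 * B)).toAffine.Point ≤
        ((∑ T : Finset (Fin s), Module.finrank ℤ (EQ ((∏ i ∈ T, d i) * α)
        ((∏ i ∈ T, d i) * β)).toAffine.Point : ℕ) : Cardinal) := by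
      rw [Nat.cast_sum]
      exact Finset.sum_le_sum fun T _ => h4 T
    exact Module.finrank_le_of_rank_le (h3.trans h6)
  have h8 : (2 : ℝ) ^ Pool.Agent.TH841.NF.D.rk (EF A B K) ≤
      ∏ T : Finset (Fin s), (2 : ℝ) ^ Module.finrank ℤ
      (EQ ((∏ i ∈ T, d i) * α) ((∏ i ∈ T, d i) * β)).toAffine.Point := by
    rw [Finset.prod_pow_eq_pow_sum]
    exact pow_le_pow_right₀ (by norm_num) h5
  have h9 : (2 : ℝ) ^ n ≤ ∏ T : Finset (Fin s), (Nat.card {y : Pool.Agent.W262.SH.Sha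
      (EQ ((∏ i ∈ T, d i) * α) ((∏ i ∈ T, d i) * β)) // y + y = 0} : ℝ) := by
    exact_mod_cast h1
  rw [pow_add]
  calc (2 : ℝ) ^ Pool.Agent.TH841.NF.D.rk (EF A B K) * 2 ^ n ≤ _ :=
        mul_le_mul h8 h9 (by positivity) (Finset.prod_nonneg fun T _ => by positivity)
    _ = ∏ T : Finset (Fin s), ((2 : ℝ) ^ Module.finrank ℤ
      (EQ ((∏ i ∈ T, d i) * α) ((∏ i ∈ T, d i) * β)).toAffine.Point *
      (Nat.card {y : Pool.Agent.W262.SH.Sha
      (EQ ((∏ i ∈ T, d i) * α) ((∏ i ∈ T, d i) * β)) // y + y = 0} : ℝ)) :=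
        Finset.prod_mul_distrib.symm
    _ ≤ ∏ T : Finset (Fin s), SN ((∏ i ∈ T, d i) * α) ((∏ i ∈ T, d i) * β) :=
        Finset.prod_le_prod (fun T _ => by positivity) fun T _ => (hbd T).2
    _ = _ := by
        unfold Pool.Agent.Q17.BF.PS SN
        rw [hα', hβ']
        push_cast
        rfl

end Pool.Agent.Q17.IG
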