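import Mathlib
import Pool.Agent.Y679.Cr.Conv
import Pool.Agent.Y679.Cr.Dens
import Pool.Agent.Q17.IG.Cyc
import Pool.Agent.Q17.IG.One

/-! The minimal model of the curve with full rational 2-torsion that is 2-isogenous to a curve with a
rational cyclic subgroup of order 4; the conductors are the same. -/

set_option autoImplicit false

namespace Pool.Agent.Q17.IG

open Finset

open Pool.Agent.H925R.Szpiro (D IsMin FullS condS)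
open Pool.Agent.Y679.Cr (Ok cs D_neg isMin_of)

/-- reduced pairs -/
def Rd (A B : ℤ) : Prop := ∀ p : ℕ, p.Prime → ¬ ((p : ℤ) ^ 4 ∣ A ∧ (p : ℤ) ^ 6 ∣ B)

/-- reduction -/
lemma min_red (n : ℕ) : ∀ A B : ℤ, (4 * A ^ 3 + 27 * B ^ 2).natAbs ≤ n → 4 * A ^ 3 + 27 * B ^ 2 ≠ 0 →
    ∃ u : ℕ, 0 < u ∧ ∃ A' B' : ℤ, A = (u : ℤ) ^ 4 * A' ∧ B = (u : ℤ) ^ 6 * B' ∧ Rd A' B' := by
  induction n with
  | zero =>
    intro A B h1 h2
    exact absurd (Int.natAbs_eq_zero.1 (Nat.le_zero.1 h1)) h2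
  | succ n ih =>
    intro A B h1 h2
    by_cases h : Rd A B
    · exact ⟨1, one_pos, A, B, by norm_num, by norm_num, h⟩
    · unfold Rd at h
      push Not at h
      obtain ⟨p, hp, ⟨A1, hA⟩, B1, hB⟩ := h
      have e1 : 4 * A ^ 3 + 27 * B ^ 2 = (p : ℤ) ^ 12 * (4 * A1 ^ 3 + 27 * B1 ^ 2) := by
        rw [hA, hB]
        ring
      have h3 : 4 * A1 ^ 3 + 27 * B1 ^ 2 ≠ 0 := by
        intro h0
        apply h2
        rw [e1, h0, mul_zero]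
      have h4 : (4 * A1 ^ 3 + 27 * B1 ^ 2).natAbs ≤ n := by
        rw [e1, Int.natAbs_mul, Int.natAbs_pow, Int.natAbs_natCast] at h1
        have h5 : 1 ≤ (4 * A1 ^ 3 + 27 * B1 ^ 2).natAbs := Int.natAbs_pos.2 h3
        have h6 : 2 ≤ p ^ 12 := by
          calc 2 ≤ p := hp.two_le
            _ ≤ p ^ 12 := Nat.le_self_pow (by norm_num) p
        nlinarith
      obtain ⟨u, hu, A', B', hA', hB', hr⟩ := ih A1 B1 h4 h3
      refine ⟨p * u, Nat.mul_pos hp.pos hu, A', B', ?_, ?_, hr⟩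
      · rw [hA, hA']
        push_cast
        ring
      · rw [hB, hB']
        push_cast
        ring

/-- uniqueness of the reduced pair -/
lemma red_unique {A1 B1 A2 B2 : ℤ} {u1 u2 : ℕ} (h1 : Rd A1 B1) (h2 : Rd A2 B2) (hu1 : 0 < u1)
    (hu2 : 0 < u2) (hA : (u2 : ℤ) ^ 4 * A1 = (u1 : ℤ) ^ 4 * A2)
    (hB : (u2 : ℤ) ^ 6 * B1 = (u1 : ℤ) ^ 6 * B2) : A1 = A2 ∧ B1 = B2 := by
  obtain ⟨g, a, b, hg, hab, e1, e2⟩ : ∃ g a b : ℕ, 0 < g ∧ Nat.Coprime a b ∧ u1 = a * g ∧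
      u2 = b * g := by
    obtain ⟨g, a, b, hg, hab, e1, e2⟩ := Nat.exists_coprime' (m := u1) (n := u2)
      (Nat.gcd_pos_of_pos_left _ hu1)
    exact ⟨g, a, b, hg, hab, e1, e2⟩
  have hg0 : (g : ℤ) ≠ 0 := by exact_mod_cast hg.ne'
  have hA' : (b : ℤ) ^ 4 * A1 = (a : ℤ) ^ 4 * A2 := by
    apply mul_left_cancel₀ (pow_ne_zero 4 hg0)
    rw [e1, e2] at hA
    push_cast at hA
    linear_combination hA
  have hB' : (b : ℤ) ^ 6 * B1 = (a : ℤ) ^ 6 * B2 := by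
    apply mul_left_cancel₀ (pow_ne_zero 6 hg0)
    rw [e1, e2] at hB
    push_cast at hB
    linear_combination hB
  have hcop : IsCoprime (a : ℤ) (b : ℤ) := Nat.isCoprime_iff_coprime.2 hab
  have ha : a = 1 := by
    by_contra hne
    obtain ⟨p, hp, hpa⟩ := Nat.exists_prime_and_dvd hne
    have hpa' : (p : ℤ) ∣ (a : ℤ) := by exact_mod_cast hpa
    refine h1 p hp ⟨(pow_dvd_pow_of_dvd hpa' 4).trans ?_, (pow_dvd_pow_of_dvd hpa' 6).trans ?_⟩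
    · exact (IsCoprime.pow hcop).dvd_of_dvd_mul_left ⟨A2, hA'⟩
    · exact (IsCoprime.pow hcop).dvd_of_dvd_mul_left ⟨B2, hB'⟩
  have hb : b = 1 := by
    by_contra hne
    obtain ⟨p, hp, hpb⟩ := Nat.exists_prime_and_dvd hne
    have hpb' : (p : ℤ) ∣ (b : ℤ) := by exact_mod_cast hpb
    refine h2 p hp ⟨(pow_dvd_pow_of_dvd hpb' 4).trans ?_, (pow_dvd_pow_of_dvd hpb' 6).trans ?_⟩
    · exact (IsCoprime.pow hcop.symm).dvd_of_dvd_mul_left ⟨A1, hA'.symm⟩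
    · exact (IsCoprime.pow hcop.symm).dvd_of_dvd_mul_left ⟨B1, hB'.symm⟩
  rw [ha, hb] at hA' hB'
  constructor
  · simpa using hA'
  · simpa using hB'

/-- the two curves are linked, with the parameters `e`, `q` and the scaling `u` -/
structure Lk (c c' : ℤ × ℤ) (e q : ℤ) (u : ℕ) (r : ℤ) : Prop where
  hc1 : c.1 = q ^ 2 - 3 * e ^ 2
  hc2 : c.2 = 2 * e ^ 3 - q ^ 2 * e
  hD : 4 * c.1 ^ 3 + 27 * c.2 ^ 2 ≠ 0
  hR : Rd c.1 c.2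
  hu : 0 < u
  h1 : (u : ℤ) ^ 4 * c'.1 = -(3 * e ^ 2 + 4 * q ^ 2)
  h2 : (u : ℤ) ^ 6 * c'.2 = 2 * e ^ 3 - 8 * q ^ 2 * e
  hr : (u : ℤ) ^ 2 * r = -2 * e
  hR' : Rd c'.1 c'.2

lemma exists_Lk {c : ℤ × ℤ} (hD : 4 * c.1 ^ 3 + 27 * c.2 ^ 2 ≠ 0) (hR : Rd c.1 c.2) (hc : Cyc c) :
    ∃ (c' : ℤ × ℤ) (e q : ℤ) (u : ℕ) (r : ℤ), Lk c c' e q u r := by
  obtain ⟨e, q, h1, h2⟩ := hc
  have hD' := hD
  rw [h1, h2, disc_eq] at hD'
  have e1 : 4 * (-(3 * e ^ 2 + 4 * q ^ 2)) ^ 3 + 27 * (2 * e ^ 3 - 8 * q ^ 2 * e) ^ 2 =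
      -(16 * q ^ 2 * (4 * q ^ 2 - 9 * e ^ 2) ^ 2) := by ring
  have h3 : 4 * (-(3 * e ^ 2 + 4 * q ^ 2)) ^ 3 + 27 * (2 * e ^ 3 - 8 * q ^ 2 * e) ^ 2 ≠ 0 := by
    rw [e1, neg_ne_zero]
    have hq : q ≠ 0 := by
      intro h
      apply hD'
      rw [h]
      ring
    exact mul_ne_zero (mul_ne_zero (by norm_num) (pow_ne_zero 2 hq))
      (pow_ne_zero 2 (right_ne_zero_of_mul hD'))
  obtain ⟨u, hu, A', B', hA, hB, hr⟩ := min_red _ _ _ le_rfl h3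
  have hu0 : (u : ℚ) ≠ 0 := by exact_mod_cast hu.ne'
  obtain ⟨n, hn⟩ := int_of_rat (x := -2 * (e : ℚ) / (u : ℚ) ^ 2) (a := 0) (b := A') (c := B') (by
    have hA' : (A' : ℚ) = -(3 * (e : ℚ) ^ 2 + 4 * q ^ 2) / (u : ℚ) ^ 4 := by
      rw [eq_div_iff (pow_ne_zero 4 hu0), mul_comm]
      exact_mod_cast hA.symm
    have hB' : (B' : ℚ) = (2 * (e : ℚ) ^ 3 - 8 * q ^ 2 * e) / (u : ℚ) ^ 6 := by
      rw [eq_div_iff (pow_ne_zero 6 hu0), mul_comm]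
      exact_mod_cast hB.symm
    rw [hA', hB']
    push_cast
    field_simp
    ring)
  refine ⟨(A', B'), e, q, u, n, h1, h2, hD, hR, hu, hA.symm, hB.symm, ?_, hr⟩
  have h4 : (u : ℚ) ^ 2 * n = -2 * e := by
    rw [hn]
    field_simp
  exact_mod_cast h4

section

variable {c c' : ℤ × ℤ} {e q : ℤ} {u : ℕ} {r : ℤ} (L : Lk c c' e q u r)

include L

lemma Lk.disc : (u : ℤ) ^ 12 * (4 * c'.1 ^ 3 + 27 * c'.2 ^ 2) =
    -(16 * q ^ 2 * (4 * q ^ 2 - 9 * e ^ 2) ^ 2) := by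
  have e1 : (u : ℤ) ^ 12 * (4 * c'.1 ^ 3 + 27 * c'.2 ^ 2) =
      4 * ((u : ℤ) ^ 4 * c'.1) ^ 3 + 27 * ((u : ℤ) ^ 6 * c'.2) ^ 2 := by ring
  rw [e1, L.h1, L.h2]
  ring

lemma Lk.ne : q ≠ 0 ∧ 4 * q ^ 2 ≠ 9 * e ^ 2 := by
  have h0 := L.hD
  rw [L.hc1, L.hc2, disc_eq] at h0
  refine ⟨fun h => h0 ?_, fun h => h0 ?_⟩
  · rw [h]
    ring
  · rw [h]
    ring

lemma Lk.D' : 4 * c'.1 ^ 3 + 27 * c'.2 ^ 2 ≠ 0 := by
  intro h
  have h1 := L.disc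
  rw [h, mul_zero] at h1
  obtain ⟨h2, h3⟩ := L.ne
  have h4 : 16 * q ^ 2 * (4 * q ^ 2 - 9 * e ^ 2) ^ 2 ≠ 0 :=
    mul_ne_zero (mul_ne_zero (by norm_num) (pow_ne_zero 2 h2)) (pow_ne_zero 2 (sub_ne_zero.2 h3))
  apply h4
  linarith

/-- the curve with full rational 2-torsion -/
lemma Lk.ok : Ok c' := by
  refine ⟨isMin_of L.D' L.hR', ?_⟩
  have hu0 : (u : ℚ) ≠ 0 := by exact_mod_cast L.hu.ne'
  have hA' : (c'.1 : ℚ) = -(3 * (e : ℚ) ^ 2 + 4 * q ^ 2) / (u : ℚ) ^ 4 := by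
    rw [eq_div_iff (pow_ne_zero 4 hu0), mul_comm]
    exact_mod_cast L.h1
  have hB' : (c'.2 : ℚ) = (2 * (e : ℚ) ^ 3 - 8 * q ^ 2 * e) / (u : ℚ) ^ 6 := by
    rw [eq_div_iff (pow_ne_zero 6 hu0), mul_comm]
    exact_mod_cast L.h2
  refine ⟨-2 * (e : ℚ) / (u : ℚ) ^ 2, ((e : ℚ) + 2 * q) / (u : ℚ) ^ 2,
    ((e : ℚ) - 2 * q) / (u : ℚ) ^ 2, fun x => ?_⟩
  push_cast
  rw [hA', hB']
  field_simp
  ring

/-- large primes do not divide the scaling -/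
lemma Lk.not_dvd_u {p : ℕ} (hp : p.Prime) (h5 : 5 ≤ p) : ¬ p ∣ u := by
  intro hpu
  have hpp : Prime (p : ℤ) := Nat.prime_iff_prime_int.1 hp
  have hpu' : (p : ℤ) ∣ (u : ℤ) := by exact_mod_cast hpu
  have a1 : (p : ℤ) ^ 4 ∣ 3 * e ^ 2 + 4 * q ^ 2 := by
    have : (p : ℤ) ^ 4 ∣ (u : ℤ) ^ 4 * c'.1 := Dvd.dvd.mul_right (pow_dvd_pow_of_dvd hpu' 4) _
    rw [L.h1] at this
    exact (dvd_neg).1 this
  have a3 : (p : ℤ) ^ 2 ∣ 2 * e := by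
    have : (p : ℤ) ^ 2 ∣ (u : ℤ) ^ 2 * r := Dvd.dvd.mul_right (pow_dvd_pow_of_dvd hpu' 2) _
    rw [L.hr] at this
    have h6 : -2 * e = -(2 * e) := by ring
    rw [h6] at this
    exact (dvd_neg).1 this
  have c2 : IsCoprime ((p : ℤ)) 2 := by
    have : Nat.Coprime p 2 := by
      rw [Nat.coprime_comm, Nat.coprime_two_left]
      exact hp.odd_of_ne_two (by omega)
    exact_mod_cast Nat.isCoprime_iff_coprime.2 this
  have a4 : (p : ℤ) ^ 2 ∣ e := (IsCoprime.pow_left c2).dvd_of_dvd_mul_left a3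
  have a5 : (p : ℤ) ^ 4 ∣ e ^ 2 := by
    have := pow_dvd_pow_of_dvd a4 2
    rwa [← pow_mul] at this
  have a6 : (p : ℤ) ^ 4 ∣ 4 * q ^ 2 := by
    have e1 : 4 * q ^ 2 = (3 * e ^ 2 + 4 * q ^ 2) - 3 * e ^ 2 := by ring
    rw [e1]
    exact dvd_sub a1 (Dvd.dvd.mul_left a5 3)
  have c4 : IsCoprime ((p : ℤ) ^ 4) 4 := by
    have := IsCoprime.pow (m := 4) (n := 2) c2
    norm_num at this
    exact this
  have a7 : (p : ℤ) ^ 4 ∣ q ^ 2 := c4.dvd_of_dvd_mul_left a6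
  have a8 : (p : ℤ) ^ 2 ∣ q := by
    have e1 : ((p : ℤ) ^ 2) ^ 2 ∣ q ^ 2 := by rwa [← pow_mul]
    exact (Int.pow_dvd_pow_iff (by norm_num)).1 e1
  apply L.hR p hp
  rw [L.hc1, L.hc2]
  constructor
  · exact dvd_sub a7 (Dvd.dvd.mul_left a5 3)
  · obtain ⟨f, hf⟩ := a4
    obtain ⟨g, hg⟩ := a8
    exact ⟨2 * f ^ 3 - g ^ 2 * f, by rw [hf, hg]; ring⟩

/-- the conductors are the same -/
lemma Lk.cond : cs c' = cs c := by
  have key : ∀ p : ℕ, p.Prime → 5 ≤ p →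
      (((p : ℤ) ∣ 4 * c'.1 ^ 3 + 27 * c'.2 ^ 2 ↔ (p : ℤ) ∣ 4 * c.1 ^ 3 + 27 * c.2 ^ 2) ∧
      ((p : ℤ) ∣ 4 * c.1 ^ 3 + 27 * c.2 ^ 2 → ((p : ℤ) ∣ c'.1 ↔ (p : ℤ) ∣ c.1))) := by
    intro p hp h5
    have hpp : Prime (p : ℤ) := Nat.prime_iff_prime_int.1 hp
    have hu : ¬ (p : ℤ) ∣ (u : ℤ) := fun h => L.not_dvd_u hp h5 (by exact_mod_cast h)
    have hn : ∀ m : ℕ, 0 < m → m < 5 → ¬ (p : ℤ) ∣ (m : ℤ) := by
      intro m h1 h2 h3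
      have h4 : p ∣ m := by exact_mod_cast h3
      have := Nat.le_of_dvd h1 h4
      omega
    have n2 : ¬ (p : ℤ) ∣ 2 := hn 2 (by norm_num) (by norm_num)
    have n3 : ¬ (p : ℤ) ∣ 3 := hn 3 (by norm_num) (by norm_num)
    have hup : ∀ k : ℕ, ¬ (p : ℤ) ∣ (u : ℤ) ^ k := fun k h => hu (hpp.dvd_of_dvd_pow h)
    have hd : (p : ℤ) ∣ 4 * c'.1 ^ 3 + 27 * c'.2 ^ 2 ↔ (p : ℤ) ∣ q ∨ (p : ℤ) ∣ 4 * q ^ 2 - 9 * e ^ 2 := by
      constructor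
      · intro h
        have h1 : (p : ℤ) ∣ 16 * q ^ 2 * (4 * q ^ 2 - 9 * e ^ 2) ^ 2 := by
          have := Dvd.dvd.mul_left h ((u : ℤ) ^ 12)
          rw [L.disc] at this
          exact (dvd_neg).1 this
        rcases hpp.dvd_or_dvd h1 with h2 | h2
        · rcases hpp.dvd_or_dvd h2 with h3 | h3
          · exfalso
            have : (16 : ℤ) = 2 ^ 4 := by norm_num
            rw [this] at h3
            exact n2 (hpp.dvd_of_dvd_pow h3)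
          · exact Or.inl (hpp.dvd_of_dvd_pow h3)
        · exact Or.inr (hpp.dvd_of_dvd_pow h2)
      · intro h
        have h1 : (p : ℤ) ∣ (u : ℤ) ^ 12 * (4 * c'.1 ^ 3 + 27 * c'.2 ^ 2) := by
          rw [L.disc, dvd_neg]
          rcases h with h | h
          · exact Dvd.dvd.mul_right (Dvd.dvd.mul_left (dvd_pow h (by norm_num)) _) _
          · exact Dvd.dvd.mul_left (dvd_pow h (by norm_num)) _
        exact (hpp.dvd_or_dvd h1).resolve_left (hup 12)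
    have hd2 : (p : ℤ) ∣ 4 * c.1 ^ 3 + 27 * c.2 ^ 2 ↔ (p : ℤ) ∣ q ∨ (p : ℤ) ∣ 4 * q ^ 2 - 9 * e ^ 2 := by
      rw [L.hc1, L.hc2, disc_eq]
      constructor
      · intro h
        rcases hpp.dvd_or_dvd h with h2 | h2
        · exact Or.inl (hpp.dvd_of_dvd_pow h2)
        · exact Or.inr h2
      · rintro (h | h)
        · exact Dvd.dvd.mul_right (dvd_pow h (by norm_num)) _
        · exact Dvd.dvd.mul_left h _
    refine ⟨hd.trans hd2.symm, fun h => ?_⟩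
    -- the additive primes
    have b1 : (p : ℤ) ∣ c'.1 ↔ (p : ℤ) ∣ 3 * e ^ 2 + 4 * q ^ 2 := by
      constructor
      · intro h1
        have := Dvd.dvd.mul_left h1 ((u : ℤ) ^ 4)
        rw [L.h1] at this
        exact (dvd_neg).1 this
      · intro h1
        have h2 : (p : ℤ) ∣ (u : ℤ) ^ 4 * c'.1 := by
          rw [L.h1, dvd_neg]
          exact h1
        exact (hpp.dvd_or_dvd h2).resolve_left (hup 4)
    rw [b1, L.hc1]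
    have b2 : (p : ℤ) ∣ e ∧ (p : ℤ) ∣ q → ((p : ℤ) ∣ 3 * e ^ 2 + 4 * q ^ 2 ∧
        (p : ℤ) ∣ q ^ 2 - 3 * e ^ 2) := by
      rintro ⟨h1, h2⟩
      exact ⟨dvd_add (Dvd.dvd.mul_left (dvd_pow h1 (by norm_num)) _)
        (Dvd.dvd.mul_left (dvd_pow h2 (by norm_num)) _),
        dvd_sub (dvd_pow h2 (by norm_num)) (Dvd.dvd.mul_left (dvd_pow h1 (by norm_num)) _)⟩
    have b3 : ∀ m : ℤ, (p : ℤ) ∣ 3 * m ^ 2 → (p : ℤ) ∣ m := fun m h1 =>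
      hpp.dvd_of_dvd_pow ((hpp.dvd_or_dvd h1).resolve_left n3)
    have b4 : ∀ m : ℤ, (p : ℤ) ∣ 4 * m ^ 2 → (p : ℤ) ∣ m := fun m h1 => by
      have h2 : (p : ℤ) ∣ (2 * m) ^ 2 := by
        have e1 : (2 * m) ^ 2 = 4 * m ^ 2 := by ring
        rw [e1]
        exact h1
      exact (hpp.dvd_or_dvd (hpp.dvd_of_dvd_pow h2)).resolve_left n2
    rcases hd2.1 h with h1 | h1
    · have h2 : (p : ℤ) ∣ q ^ 2 := dvd_pow h1 (by norm_num)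
      constructor
      · intro h3
        have h4 : (p : ℤ) ∣ 3 * e ^ 2 := by
          have e1 : 3 * e ^ 2 = (3 * e ^ 2 + 4 * q ^ 2) - 4 * q ^ 2 := by ring
          rw [e1]
          exact dvd_sub h3 (Dvd.dvd.mul_left h2 _)
        exact (b2 ⟨b3 e h4, h1⟩).2
      · intro h3
        have h4 : (p : ℤ) ∣ 3 * e ^ 2 := by
          have e1 : 3 * e ^ 2 = q ^ 2 - (q ^ 2 - 3 * e ^ 2) := by ring
          rw [e1]
          exact dvd_sub h2 h3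
        exact (b2 ⟨b3 e h4, h1⟩).1
    · have hq : (p : ℤ) ∣ e → (p : ℤ) ∣ q := by
        intro h2
        apply b4
        have e1 : 4 * q ^ 2 = (4 * q ^ 2 - 9 * e ^ 2) + 9 * e ^ 2 := by ring
        rw [e1]
        exact dvd_add h1 (Dvd.dvd.mul_left (dvd_pow h2 (by norm_num)) _)
      constructor
      · intro h3
        have h4 : (p : ℤ) ∣ 3 * (2 * e) ^ 2 := by
          have e1 : 3 * (2 * e) ^ 2 = (3 * e ^ 2 + 4 * q ^ 2) - (4 * q ^ 2 - 9 * e ^ 2) := by ring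
          rw [e1]
          exact dvd_sub h3 h1
        have h5 : (p : ℤ) ∣ e := (hpp.dvd_or_dvd (b3 _ h4)).resolve_left n2
        exact (b2 ⟨h5, hq h5⟩).2
      · intro h3
        have h4 : (p : ℤ) ∣ 3 * e ^ 2 := by
          have e1 : 3 * e ^ 2 = 4 * (q ^ 2 - 3 * e ^ 2) * (-1) + (4 * q ^ 2 - 9 * e ^ 2) := by ring
          rw [e1]
          exact dvd_add (Dvd.dvd.mul_right (Dvd.dvd.mul_left h3 _) _) h1
        have h5 : (p : ℤ) ∣ e := b3 _ h4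
        exact (b2 ⟨h5, hq h5⟩).1
  unfold cs condS
  have hs : (D (-c'.1) (-c'.2)).natAbs.primeFactors.filter (fun p => 5 ≤ p) =
      (D (-c.1) (-c.2)).natAbs.primeFactors.filter (fun p => 5 ≤ p) := by
    ext p
    rw [mem_filter, mem_filter, Nat.mem_primeFactors, Nat.mem_primeFactors, D_neg, D_neg,
      Int.natAbs_neg, Int.natAbs_neg]
    constructor
    · rintro ⟨⟨h1, h2, -⟩, h3⟩
      exact ⟨⟨h1, Int.natCast_dvd.1 ((key p h1 h3).1.1 (Int.natCast_dvd.2 h2)),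
        Int.natAbs_ne_zero.2 L.hD⟩, h3⟩
    · rintro ⟨⟨h1, h2, -⟩, h3⟩
      exact ⟨⟨h1, Int.natCast_dvd.1 ((key p h1 h3).1.2 (Int.natCast_dvd.2 h2)),
        Int.natAbs_ne_zero.2 L.D'⟩, h3⟩
  rw [hs]
  refine prod_congr rfl fun p hp => ?_
  rw [mem_filter, Nat.mem_primeFactors, D_neg, Int.natAbs_neg] at hp
  obtain ⟨⟨h1, h2, -⟩, h3⟩ := hp
  have h4 := (key p h1 h3).2 (Int.natCast_dvd.2 h2)
  by_cases h : (p : ℤ) ∣ c.1
  · rw [if_pos ((dvd_neg).2 (h4.2 h)), if_pos ((dvd_neg).2 h)]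
  · rw [if_neg fun h' => h (h4.1 ((dvd_neg).1 h')), if_neg fun h' => h ((dvd_neg).1 h')]

/-- the root -/
lemma Lk.root : r ^ 3 + c'.1 * r + c'.2 = 0 := by
  have hu0 : (u : ℤ) ^ 6 ≠ 0 := pow_ne_zero 6 (by exact_mod_cast L.hu.ne')
  apply mul_left_cancel₀ hu0
  rw [mul_zero]
  have e1 : (u : ℤ) ^ 6 * (r ^ 3 + c'.1 * r + c'.2) = ((u : ℤ) ^ 2 * r) ^ 3 +
      ((u : ℤ) ^ 4 * c'.1) * ((u : ℤ) ^ 2 * r) + (u : ℤ) ^ 6 * c'.2 := by ring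
  rw [e1, L.h1, L.h2, L.hr]
  ring

end

/-- the curve is determined by the linked curve and the root -/
lemma Lk.unique {c1 c2 c' : ℤ × ℤ} {e1 q1 e2 q2 : ℤ} {u1 u2 : ℕ} {r : ℤ}
    (L1 : Lk c1 c' e1 q1 u1 r) (L2 : Lk c2 c' e2 q2 u2 r) : c1 = c2 := by
  have a1 : ∀ {c : ℤ × ℤ} {e q : ℤ} {u : ℕ}, Lk c c' e q u r →
      16 * c.1 = -((u : ℤ) ^ 4 * (4 * c'.1 + 15 * r ^ 2)) ∧
      32 * c.2 = -((u : ℤ) ^ 6 * (r * (11 * r ^ 2 + 4 * c'.1))) := by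
    intro c e q u L
    have h1 := L.h1
    have h2 := L.hr
    have h3 : 2 * e = -((u : ℤ) ^ 2 * r) := by linarith
    have h4 : 4 * e ^ 2 = (u : ℤ) ^ 4 * r ^ 2 := by
      have : (2 * e) ^ 2 = ((u : ℤ) ^ 2 * r) ^ 2 := by rw [h3]; ring
      linear_combination this
    have h5 : 16 * q ^ 2 = -(4 * ((u : ℤ) ^ 4 * c'.1)) - 3 * ((u : ℤ) ^ 4 * r ^ 2) := by
      linear_combination 4 * h1 - 3 * h4
    refine ⟨?_, ?_⟩
    · rw [L.hc1]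
      linear_combination h5 - 12 * h4
    · rw [L.hc2]
      have e1 : 32 * (2 * e ^ 3 - q ^ 2 * e) = 2 * e * (8 * (4 * e ^ 2) - 16 * q ^ 2) := by ring
      rw [e1, h4, h5, h3]
      ring
  obtain ⟨b1, b2⟩ := a1 L1
  obtain ⟨d1, d2⟩ := a1 L2
  obtain ⟨k1, k2⟩ := red_unique (u1 := u1) (u2 := u2) L1.hR L2.hR L1.hu L2.hu (by
    have : 16 * ((u2 : ℤ) ^ 4 * c1.1) = 16 * ((u1 : ℤ) ^ 4 * c2.1) := by
      linear_combination (u2 : ℤ) ^ 4 * b1 - (u1 : ℤ) ^ 4 * d1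
    linarith) (by
    have : 32 * ((u2 : ℤ) ^ 6 * c1.2) = 32 * ((u1 : ℤ) ^ 6 * c2.2) := by
      linear_combination (u2 : ℤ) ^ 6 * b2 - (u1 : ℤ) ^ 6 * d2
    linarith)
  exact Prod.ext k1 k2

end Pool.Agent.Q17.IG
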