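import Mathlib
import Pool.Agent.W307.RG.MqTw
import Pool.Agent.Q17.IG.One
import Pool.Agent.Q17.IG.Lnk

/-! One curve over one multiquadratic field: the bound by the 2-Selmer groups of the twists of a curve
that is related by homomorphisms with composite 2. -/

set_option autoImplicit false

namespace Pool.Agent.Q17.IG

open Finset WeierstrassCurve

open Pool.Agent.TH841.SH.D (Pt act Sha)
open Pool.Agent.Y676.IS (NH)
open Pool.Agent.TH841.PT (EQ)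
open Pool.Agent.W307.RT (Sh)
open Pool.Agent.TH841.NF (EF Gen tw)

open Pool.Agent.TH841.NF (div_bound thS thS_ker sc_EF tw_Sh tor2) in
/-- **one curve over one field** -/
theorem one_gen {K : Type} [Field K] [NumberField K] {s : ℕ} {d : Fin s → ℤ}
    (hK : Gen K d) (hd : ∀ i, d i ≠ 0) {A B : ℤ} (hD : 4 * A ^ 3 + 27 * B ^ 2 ≠ 0)
    (W : Finset (Fin s) → WeierstrassCurve ℚ) (N : Finset (Fin s) → ℝ)
    (hbd : ∀ T, Pool.Agent.TH841.SH.Bd (W T) (N T))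
    (hfg : ∀ T, Module.Finite ℤ (W T).toAffine.Point)
    (hex0 : ∀ T : Finset (Fin s), ∃ (θ : NH (Sh ((∏ i ∈ T, d i) ^ 2 * A) ((∏ i ∈ T, d i) ^ 3 * B))
      (W T)) (θ' : NH (W T) (Sh ((∏ i ∈ T, d i) ^ 2 * A) ((∏ i ∈ T, d i) ^ 3 * B))),
      ∀ (L : Type) [Field L] [Algebra ℚ L]
        (P : Pt (Sh ((∏ i ∈ T, d i) ^ 2 * A) ((∏ i ∈ T, d i) ^ 3 * B)) L),
        θ'.f L (θ.f L P) = P + P) {n : ℕ}
    (hn : Pool.Agent.TH841.NF.D.HasDiv (EF A B K) n) :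
    (2 : ℝ) ^ (Pool.Agent.TH841.NF.D.rk (EF A B K) + n) ≤ ∏ T, N T := by
  classical
  obtain ⟨x, hx, hgen⟩ := hK
  have hdq : ∀ i, (d i : ℚ) ≠ 0 := fun i => by exact_mod_cast hd i
  have hxq : ∀ i, x i ^ 2 = algebraMap ℚ K (d i : ℚ) := fun i => by
    rw [hx i, map_intCast]
  have he : Nonempty (AlgebraicClosure K ≃+* Pool.Agent.TH841.NF.Qb) := by
    have h1 : Algebra.IsAlgebraic ℚ (AlgebraicClosure K) := Algebra.IsAlgebraic.trans ℚ K _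
    have h2 : IsAlgClosure ℚ (AlgebraicClosure K) := ⟨inferInstance, h1⟩
    exact ⟨(IsAlgClosure.equiv ℚ (AlgebraicClosure K) (AlgebraicClosure ℚ)).toRingEquiv⟩
  obtain ⟨e'⟩ := he
  obtain ⟨g, hg⟩ := hn
  have hex : ∀ T : Finset (Fin s), ∃ F : Sha (tw (∏ i ∈ T, (d i : ℚ)) (Sh A B)) →+
      Sha (W T), ∀ y, F y = 0 → y + y = 0 := by
    intro T
    rw [tw_Sh]
    obtain ⟨θ, θ', h⟩ := hex0 T
    exact ⟨θ.sha, sha_two θ θ' h⟩
  choose Φ hΦ using hex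
  have hfin : ∀ T : Finset (Fin s), Finite {y : Sha (W T) // y + y = 0} := by
    intro T
    have := (hbd T).1
    exact Finite.of_equiv _ (tor2 _).symm
  have h1 := div_bound (fun T => (Φ T).comp (thS (sc_EF A B K) rfl rfl e' hxq hdq hgen T)) (s + 1)
    (fun y hy => by
      have a1 : ∀ T, thS (sc_EF A B K) rfl rfl e' hxq hdq hgen T (y + y) = 0 := by
        intro T
        rw [map_add]
        exact hΦ T _ (hy T)
      have a2 := thS_ker (sc_EF A B K) rfl rfl e' hxq hdq hgen (y + y) a1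
      rw [pow_succ, mul_smul, two_nsmul]
      exact a2) hfin n g hg
  have h2 : ∀ T : Finset (Fin s), Nat.card {y : Sha (W T) // y + y = 0} =
      Nat.card {y : Pool.Agent.W262.SH.Sha (W T) // y + y = 0} := fun T => Nat.card_congr (tor2 _)
  rw [Finset.prod_congr rfl fun T _ => h2 T] at h1
  have h3 := Pool.Agent.W307.RS.mq2 K s x d hx hd hgen A B hD
  have h4 : ∀ T : Finset (Fin s), Module.rank ℤ
      (Sh ((∏ i ∈ T, d i) ^ 2 * A) ((∏ i ∈ T, d i) ^ 3 * B)).toAffine.Point ≤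
      ((Module.finrank ℤ (W T).toAffine.Point : ℕ) : Cardinal) := by
    intro T
    obtain ⟨θ, θ', h⟩ := hex0 T
    have := hfg T
    rw [Module.finrank_eq_rank]
    exact pt_two θ θ' h
  have h5 : Pool.Agent.TH841.NF.D.rk (EF A B K) ≤ ∑ T : Finset (Fin s), Module.finrank ℤ
      (W T).toAffine.Point := by
    have h6 : ∑ T : Finset (Fin s), Module.rank ℤ (Sh ((∏ i ∈ T, d i) ^ 2 * A)
        ((∏ i ∈ T, d i) ^ 3 * B)).toAffine.Point ≤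
        ((∑ T : Finset (Fin s), Module.finrank ℤ (W T).toAffine.Point : ℕ) : Cardinal) := by
      rw [Nat.cast_sum]
      exact Finset.sum_le_sum fun T _ => h4 T
    exact Module.finrank_le_of_rank_le (h3.trans h6)
  have h8 : (2 : ℝ) ^ Pool.Agent.TH841.NF.D.rk (EF A B K) ≤
      ∏ T : Finset (Fin s), (2 : ℝ) ^ Module.finrank ℤ (W T).toAffine.Point := by
    rw [Finset.prod_pow_eq_pow_sum]
    exact pow_le_pow_right₀ (by norm_num) h5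
  have h9 : (2 : ℝ) ^ n ≤ ∏ T : Finset (Fin s), (Nat.card {y : Pool.Agent.W262.SH.Sha
      (W T) // y + y = 0} : ℝ) := by
    exact_mod_cast h1
  rw [pow_add]
  calc (2 : ℝ) ^ Pool.Agent.TH841.NF.D.rk (EF A B K) * 2 ^ n ≤ _ :=
        mul_le_mul h8 h9 (by positivity) (Finset.prod_nonneg fun T _ => by positivity)
    _ = ∏ T : Finset (Fin s), ((2 : ℝ) ^ Module.finrank ℤ (W T).toAffine.Point *
      (Nat.card {y : Pool.Agent.W262.SH.Sha (W T) // y + y = 0} : ℝ)) :=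
        Finset.prod_mul_distrib.symm
    _ ≤ ∏ T : Finset (Fin s), N T :=
        Finset.prod_le_prod (fun T _ => by positivity) fun T _ => (hbd T).2

/-- the twist by `-1 / u ...`: the isogenous curve and its minimal model -/
lemma Lk.sb {c c' : ℤ × ℤ} {e q : ℤ} {u : ℕ} {r : ℤ} (L : Lk c c' e q u r) (D : ℤ) :
    Sb ((u : ℚ)⁻¹) (D * r : ℚ) (EQ (D * (3 * e + 2 * q)) (D * (3 * e - 2 * q)))
      (Sh (D ^ 2 * c'.1) (D ^ 3 * c'.2)) := by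
  have hu0 : (u : ℚ) ≠ 0 := by exact_mod_cast L.hu.ne'
  have hr : (u : ℚ) ^ 2 * r = -2 * e := by exact_mod_cast L.hr
  have h1 : (u : ℚ) ^ 4 * c'.1 = -(3 * (e : ℚ) ^ 2 + 4 * q ^ 2) := by exact_mod_cast L.h1
  have h2 : (r : ℚ) ^ 3 + c'.1 * r + c'.2 = 0 := by exact_mod_cast L.root
  refine ⟨inv_ne_zero hu0, rfl, rfl, rfl, rfl, ?_, ?_, ?_⟩
  · change 3 * ((D : ℚ) * r) + 0 = ((u : ℚ)⁻¹) ^ 2 * (-(((D * (3 * e + 2 * q) : ℤ) : ℚ) +
        ((D * (3 * e - 2 * q) : ℤ) : ℚ)))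
    push_cast
    field_simp
    linear_combination (3 * (D : ℚ)) * hr
  · change 3 * ((D : ℚ) * r) ^ 2 + 2 * 0 * ((D : ℚ) * r) + ((D ^ 2 * c'.1 : ℤ) : ℚ) =
        ((u : ℚ)⁻¹) ^ 4 * (((D * (3 * e + 2 * q) : ℤ) : ℚ) * ((D * (3 * e - 2 * q) : ℤ) : ℚ))
    push_cast
    have h3 : ((u : ℚ) ^ 2 * r) ^ 2 = 4 * (e : ℚ) ^ 2 := by rw [hr]; ring
    field_simp
    linear_combination (D : ℚ) ^ 2 * h1 + 3 * (D : ℚ) ^ 2 * h3
  · change ((D : ℚ) * r) ^ 3 + 0 * ((D : ℚ) * r) ^ 2 + ((D ^ 2 * c'.1 : ℤ) : ℚ) * ((D : ℚ) * r) +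
        ((D ^ 3 * c'.2 : ℤ) : ℚ) = ((u : ℚ)⁻¹) ^ 6 * 0
    push_cast
    linear_combination (D : ℚ) ^ 3 * h2

/-- the homomorphisms -/
theorem Lk.two {c c' : ℤ × ℤ} {e q : ℤ} {u : ℕ} {r : ℤ} (L : Lk c c' e q u r) {D : ℤ} (hD : D ≠ 0) :
    ∃ (θ : NH (Sh (D ^ 2 * c.1) (D ^ 3 * c.2)) (Sh (D ^ 2 * c'.1) (D ^ 3 * c'.2)))
      (θ' : NH (Sh (D ^ 2 * c'.1) (D ^ 3 * c'.2)) (Sh (D ^ 2 * c.1) (D ^ 3 * c.2))),
      ∀ (L : Type) [Field L] [Algebra ℚ L] (P : Pt (Sh (D ^ 2 * c.1) (D ^ 3 * c.2)) L),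
        θ'.f L (θ.f L P) = P + P := by
  obtain ⟨θ, θ', h⟩ := exists_two L.hc1 L.hc2 L.ne.1 L.ne.2 hD
  refine ⟨NHcomp (nh (L.sb D)) θ, NHcomp θ' (nh (L.sb D).inv), fun F _ _ P => ?_⟩
  change θ'.f F ((nh (L.sb D).inv).f F ((nh (L.sb D)).f F (θ.f F P))) = P + P
  rw [nh_inv, h]

end Pool.Agent.Q17.IG
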