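import Mathlib
import Pool.Agent.W672.FK.Lowf
import Pool.Agent.Q17.CO.Unc
import Pool.Agent.Q17.IG.Gen

/-! The curves with a rational cyclic subgroup of order 4, ordered by the conductor: one set of density
zero off which all the moments are bounded, uniformly in the twist. -/

set_option autoImplicit false

namespace Pool.Agent.Q17.IG

open Finset Filter Topology

open Pool.Agent.TH841.SH (Bd)
open Pool.Agent.W307.RT (Sh)
open Pool.Agent.Y679.Cr (Ok cs D_neg isMin_of full_of Gm Bdd Good Gm_fin Gm_up Gm_ge)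

/-- the reduced pairs with a rational cyclic subgroup of order 4 -/
def P4 (c : ℤ × ℤ) : Prop := 4 * c.1 ^ 3 + 27 * c.2 ^ 2 ≠ 0 ∧ Rd c.1 c.2 ∧ Cyc c

lemma good_Ok : Good Ok := by
  classical
  refine ⟨fun c hc => hc, fun H c hc => ?_, Pool.Agent.W672.FK.lowf⟩
  unfold Pool.Agent.W307.RT.Cv at hc
  obtain ⟨-, h1, -, -, h2, h3⟩ := mem_filter.1 hc
  exact ⟨isMin_of h1 h2, full_of h3⟩

open Classical in
/-- the minimal model of the isogenous curve with full rational 2-torsion -/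
noncomputable def ph (c : ℤ × ℤ) : ℤ × ℤ :=
  if h : ∃ (c' : ℤ × ℤ) (e q : ℤ) (u : ℕ) (r : ℤ), Lk c c' e q u r then h.choose else c

lemma ph_spec {c : ℤ × ℤ} (hc : P4 c) : ∃ (e q : ℤ) (u : ℕ) (r : ℤ), Lk c (ph c) e q u r := by
  have h := exists_Lk hc.1 hc.2.1 hc.2.2
  unfold ph
  rw [dif_pos h]
  exact h.choose_spec

lemma ph_ok {c : ℤ × ℤ} (hc : P4 c) : Ok (ph c) := by
  obtain ⟨e, q, u, r, L⟩ := ph_spec hc
  exact L.ok

lemma ph_cs {c : ℤ × ℤ} (hc : P4 c) : cs (ph c) = cs c := by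
  obtain ⟨e, q, u, r, L⟩ := ph_spec hc
  exact L.cond

lemma ph_mem {f : ℤ × ℤ → ℕ} (hf : Bdd f) {Z : ℕ} {c : ℤ × ℤ} (hc : c ∈ Gm P4 f Z) :
    ph c ∈ Gm Ok (fun _ => 1) Z := by
  refine ⟨ph_ok hc.1, ?_⟩
  rw [ph_cs hc.1, one_mul]
  exact (Nat.le_mul_of_pos_left _ (hf c).1).trans hc.2

/-- the curves with the same isogenous curve -/
lemma fib {c' : ℤ × ℤ} {e1 e2 e3 : ℤ}
    (h : ∀ x : ℤ, x ^ 3 + c'.1 * x + c'.2 = (x - e1) * (x - e2) * (x - e3)) :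
    ∃ r : ℤ × ℤ → ℤ, Set.MapsTo r {c | P4 c ∧ ph c = c'} (({e1, e2, e3} : Finset ℤ) : Set ℤ) ∧
      Set.InjOn r {c | P4 c ∧ ph c = c'} := by
  classical
  have key : ∀ c : ℤ × ℤ, ∃ r : ℤ, (P4 c ∧ ph c = c') → ∃ (e q : ℤ) (u : ℕ), Lk c c' e q u r := by
    intro c
    by_cases hc : P4 c ∧ ph c = c'
    · obtain ⟨e, q, u, r, L⟩ := ph_spec hc.1
      rw [hc.2] at L
      exact ⟨r, fun _ => ⟨e, q, u, L⟩⟩
    · exact ⟨0, fun h => absurd h hc⟩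
  choose r hr using key
  refine ⟨r, fun c hc => ?_, fun c hc b hb hcb => ?_⟩
  · obtain ⟨e, q, u, L⟩ := hr c hc
    have h1 := L.root
    rw [h] at h1
    rw [mem_coe, mem_insert, mem_insert, mem_singleton]
    rcases mul_eq_zero.1 h1 with h2 | h2
    · rcases mul_eq_zero.1 h2 with h3 | h3
      · exact Or.inl (sub_eq_zero.1 h3)
      · exact Or.inr (Or.inl (sub_eq_zero.1 h3))
    · exact Or.inr (Or.inr (sub_eq_zero.1 h2))
  · obtain ⟨e, q, u, L⟩ := hr c hc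
    obtain ⟨e', q', u', L'⟩ := hr b hb
    rw [← hcb] at L'
    exact L.unique L'

lemma roots_Ok : ∀ c : ℤ × ℤ, Ok c →
    ∃ e1 e2 e3 : ℤ, ∀ x : ℤ, x ^ 3 + c.1 * x + c.2 = (x - e1) * (x - e2) * (x - e3) := by
  obtain ⟨n, X, hn, -⟩ := Pool.Agent.Q17.CO.con good_Ok
  exact fun c hc => (hn c hc).2

/-- the sums over the curves and over the isogenous curves -/
lemma sum_le3 (S : Finset (ℤ × ℤ)) (hS : ∀ c ∈ S, P4 c) (g : ℤ × ℤ → ℝ)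
    (hg : ∀ c, Ok c → 0 ≤ g c) : ∑ c ∈ S, g (ph c) ≤ 3 * ∑ c ∈ S.image ph, g c := by
  classical
  rw [Finset.sum_comp g ph, mul_sum]
  refine sum_le_sum fun c' hc' => ?_
  obtain ⟨b, hb, rfl⟩ := mem_image.1 hc'
  obtain ⟨e1, e2, e3, h⟩ := roots_Ok _ (ph_ok (hS b hb))
  obtain ⟨r, hr1, hr2⟩ := fib h
  have h1 : (S.filter (fun a => ph a = ph b)).card ≤ ({e1, e2, e3} : Finset ℤ).card := by
    refine card_le_card_of_injOn r (fun a ha => ?_) (fun a ha a' ha' h' => ?_)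
    · rw [mem_coe, mem_filter] at ha
      exact hr1 ⟨hS a ha.1, ha.2⟩
    · rw [mem_coe, mem_filter] at ha ha'
      exact hr2 ⟨hS a ha.1, ha.2⟩ ⟨hS a' ha'.1, ha'.2⟩ h'
  have h2 : (S.filter (fun a => ph a = ph b)).card ≤ 3 := h1.trans card_le_three
  rw [nsmul_eq_mul]
  refine mul_le_mul_of_nonneg_right ?_ (hg _ (ph_ok (hS b hb)))
  exact_mod_cast h2

lemma G4_fin {f : ℤ × ℤ → ℕ} (hf : Bdd f) (Z : ℕ) : (Gm P4 f Z).Finite := by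
  classical
  apply Set.Finite.of_finite_fibers ph
  · apply (Gm_fin good_Ok (f := fun _ => 1) (fun _ => ⟨le_rfl, by norm_num⟩) Z).subset
    rintro _ ⟨c, hc, rfl⟩
    exact ph_mem hf hc
  · rintro _ ⟨c, hc, rfl⟩
    obtain ⟨e1, e2, e3, h⟩ := roots_Ok _ (ph_ok hc.1)
    obtain ⟨r, hr1, hr2⟩ := fib h
    refine Set.Finite.of_injOn (f := r) (t := (({e1, e2, e3} : Finset ℤ) : Set ℤ)) ?_ ?_
      (Finset.finite_toSet _)
    · rintro a ⟨ha, ha'⟩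
      exact hr1 ⟨ha.1, ha'⟩
    · rintro a ⟨ha, ha'⟩ b ⟨hb, hb'⟩ h'
      exact hr2 ⟨ha.1, ha'⟩ ⟨hb.1, hb'⟩ h'

lemma ncard_le3 {f : ℤ × ℤ → ℕ} (hf : Bdd f) (Z : ℕ) (Y : Set (ℤ × ℤ)) :
    ((Gm P4 f Z ∩ {c | ph c ∈ Y}).ncard : ℝ) ≤ 3 * ((Gm Ok (fun _ => 1) Z ∩ Y).ncard : ℝ) := by
  classical
  have h1 : (Gm P4 f Z ∩ {c | ph c ∈ Y}).Finite := (G4_fin hf Z).subset Set.inter_subset_left
  have h2 : (Gm Ok (fun _ => 1) Z ∩ Y).Finite :=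
    (Gm_fin good_Ok (f := fun _ => 1) (fun _ => ⟨le_rfl, by norm_num⟩) Z).subset
      Set.inter_subset_left
  have h3 := sum_le3 h1.toFinset (fun c hc => ((Set.Finite.mem_toFinset h1).1 hc).1.1)
    (fun _ => 1) (fun _ _ => zero_le_one)
  simp only [sum_const, nsmul_eq_mul, mul_one] at h3
  rw [Set.ncard_eq_toFinset_card _ h1, Set.ncard_eq_toFinset_card _ h2]
  refine h3.trans (mul_le_mul_of_nonneg_left ?_ (by norm_num))
  have h4 : h1.toFinset.image ph ⊆ h2.toFinset := by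
    intro c' hc'
    obtain ⟨c, hc, rfl⟩ := mem_image.1 hc'
    rw [Set.Finite.mem_toFinset] at hc ⊢
    exact ⟨ph_mem hf hc.1, hc.2⟩
  exact_mod_cast card_le_card h4

/-- the conductor of the curve with the parameters `e`, `q` -/
lemma cs_dvd {e q : ℤ} (h0 : q * (4 * q ^ 2 - 9 * e ^ 2) ≠ 0) :
    cs (q ^ 2 - 3 * e ^ 2, 2 * e ^ 3 - q ^ 2 * e) ∣ (q * (4 * q ^ 2 - 9 * e ^ 2)).natAbs := by
  classical
  unfold cs Pool.Agent.H925R.Szpiro.condS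
  rw [D_neg, Int.natAbs_neg]
  have hq : q ≠ 0 := left_ne_zero_of_mul h0
  have h9 : 4 * q ^ 2 - 9 * e ^ 2 ≠ 0 := right_ne_zero_of_mul h0
  apply Finset.prod_dvd_of_isRelPrime
  · intro p hp p' hp' hpp
    rw [mem_coe, mem_filter, Nat.mem_primeFactors] at hp hp'
    have hc : Nat.Coprime p p' := (Nat.coprime_primes hp.1.1 hp'.1.1).2 hpp
    change IsRelPrime _ _
    rw [← Nat.coprime_iff_isRelPrime]
    beta_reduce
    split_ifs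
    · exact Nat.Coprime.pow _ _ hc
    · exact Nat.Coprime.pow_left _ hc
    · exact Nat.Coprime.pow_right _ hc
    · exact hc
  · intro p hp
    rw [mem_filter, Nat.mem_primeFactors] at hp
    obtain ⟨⟨hp1, hp2, -⟩, h5⟩ := hp
    have hpp : Prime (p : ℤ) := Nat.prime_iff_prime_int.1 hp1
    have hn : ∀ m : ℕ, 0 < m → m < 5 → ¬ (p : ℤ) ∣ (m : ℤ) := by
      intro m h1 h2 h3
      have h4 : p ∣ m := by exact_mod_cast h3
      have := Nat.le_of_dvd h1 h4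
      omega
    have n2 : ¬ (p : ℤ) ∣ 2 := hn 2 (by norm_num) (by norm_num)
    have n3 : ¬ (p : ℤ) ∣ 3 := hn 3 (by norm_num) (by norm_num)
    have h1 : (p : ℤ) ∣ 4 * (q ^ 2 - 3 * e ^ 2) ^ 3 + 27 * (2 * e ^ 3 - q ^ 2 * e) ^ 2 :=
      Int.natCast_dvd.2 hp2
    rw [disc_eq] at h1
    have h2 : (p : ℤ) ∣ q ∨ (p : ℤ) ∣ 4 * q ^ 2 - 9 * e ^ 2 := by
      rcases hpp.dvd_or_dvd h1 with h3 | h3
      · exact Or.inl (hpp.dvd_of_dvd_pow h3)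
      · exact Or.inr h3
    have h6 : (p : ℤ) ∣ q * (4 * q ^ 2 - 9 * e ^ 2) := by
      rcases h2 with h3 | h3
      · exact Dvd.dvd.mul_right h3 _
      · exact Dvd.dvd.mul_left h3 _
    split_ifs with hA
    · have hA' : (p : ℤ) ∣ q ^ 2 - 3 * e ^ 2 := (dvd_neg).1 hA
      have b3 : ∀ m : ℤ, (p : ℤ) ∣ 3 * m ^ 2 → (p : ℤ) ∣ m := fun m h1 =>
        hpp.dvd_of_dvd_pow ((hpp.dvd_or_dvd h1).resolve_left n3)
      have hqe : (p : ℤ) ∣ q ∧ (p : ℤ) ∣ e := by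
        rcases h2 with h3 | h3
        · refine ⟨h3, b3 e ?_⟩
          have e1 : 3 * e ^ 2 = q ^ 2 - (q ^ 2 - 3 * e ^ 2) := by ring
          rw [e1]
          exact dvd_sub (dvd_pow h3 (by norm_num)) hA'
        · have h4 : (p : ℤ) ∣ e := by
            apply b3
            have e1 : 3 * e ^ 2 = 4 * (q ^ 2 - 3 * e ^ 2) * (-1) + (4 * q ^ 2 - 9 * e ^ 2) := by ring
            rw [e1]
            exact dvd_add (Dvd.dvd.mul_right (Dvd.dvd.mul_left hA' _) _) h3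
          refine ⟨hpp.dvd_of_dvd_pow (n := 2) ?_, h4⟩
          have e1 : q ^ 2 = (q ^ 2 - 3 * e ^ 2) + 3 * e ^ 2 := by ring
          rw [e1]
          exact dvd_add hA' (Dvd.dvd.mul_left (dvd_pow h4 (by norm_num)) _)
      obtain ⟨⟨a, ha⟩, b, hb⟩ := hqe
      have h7 : (p : ℤ) ^ 2 ∣ q * (4 * q ^ 2 - 9 * e ^ 2) :=
        ⟨p * (a * (4 * a ^ 2 - 9 * b ^ 2)), by rw [ha, hb]; ring⟩
      have h8 : ((p ^ 2 : ℕ) : ℤ) ∣ q * (4 * q ^ 2 - 9 * e ^ 2) := by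
        push_cast
        exact h7
      exact Int.natCast_dvd.1 h8
    · exact Int.natCast_dvd.1 h6

/-- the curves of the small box -/
lemma cur_G4 {f : ℤ × ℤ → ℕ} (hf : Bdd f) {m Z : ℕ} (hZ : 15925248 * m ^ 3 ≤ Z) {x : ℕ × ℕ}
    (hx : x ∈ ((Icc 1 m).filter Squarefree) ×ˢ (Ioc (2 * m) (4 * m))) : cur x ∈ Gm P4 f Z := by
  have h0 := cur_mem (H := 16384 * m ^ 6) le_rfl hx
  obtain ⟨g1, -, -, g2, g3⟩ := mem_Fm.1 h0
  refine ⟨⟨g1, g2, g3⟩, ?_⟩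
  obtain ⟨e, q⟩ := x
  rw [mem_product, mem_filter, mem_Icc, mem_Ioc] at hx
  obtain ⟨⟨⟨h1, h2⟩, h3⟩, h4, h5⟩ := hx
  change 1 ≤ e at h1
  change e ≤ m at h2
  change 2 * m < q at h4
  change q ≤ 4 * m at h5
  have h1' : (1 : ℤ) ≤ e := by exact_mod_cast h1
  have h2' : (e : ℤ) ≤ m := by exact_mod_cast h2
  have h4' : 2 * (m : ℤ) < q := by exact_mod_cast h4
  have h5' : (q : ℤ) ≤ 4 * m := by exact_mod_cast h5
  have hm0 : (0 : ℤ) ≤ m := Int.natCast_nonneg m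
  have hq0 : (0 : ℤ) ≤ q := Int.natCast_nonneg q
  have b1 : (e : ℤ) ^ 2 ≤ (m : ℤ) ^ 2 := pow_le_pow_left₀ (by omega) h2' 2
  have b2 : (q : ℤ) ^ 2 ≤ 16 * (m : ℤ) ^ 2 := by
    calc (q : ℤ) ^ 2 ≤ (4 * (m : ℤ)) ^ 2 := pow_le_pow_left₀ hq0 h5' 2
      _ = _ := by ring
  have b3 : 4 * (m : ℤ) ^ 2 ≤ (q : ℤ) ^ 2 := by
    calc 4 * (m : ℤ) ^ 2 = (2 * (m : ℤ)) ^ 2 := by ring
      _ ≤ _ := pow_le_pow_left₀ (by omega) h4'.le 2
  have hm2 : (1 : ℤ) ≤ (m : ℤ) ^ 2 := one_le_pow₀ (h1'.trans h2')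
  have b4 : 0 < 4 * (q : ℤ) ^ 2 - 9 * (e : ℤ) ^ 2 := by linarith
  have b5 : 4 * (q : ℤ) ^ 2 - 9 * (e : ℤ) ^ 2 ≤ 64 * (m : ℤ) ^ 2 := by
    have := sq_nonneg (e : ℤ)
    linarith
  have hne : (q : ℤ) * (4 * (q : ℤ) ^ 2 - 9 * (e : ℤ) ^ 2) ≠ 0 := mul_ne_zero (by omega) b4.ne'
  have h6 := cs_dvd hne
  have h7 : cs (cur (e, q)) ≤ ((q : ℤ) * (4 * (q : ℤ) ^ 2 - 9 * (e : ℤ) ^ 2)).natAbs :=
    Nat.le_of_dvd (Int.natAbs_pos.2 hne) h6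
  have h8 : ((q : ℤ) * (4 * (q : ℤ) ^ 2 - 9 * (e : ℤ) ^ 2)).natAbs ≤ 256 * m ^ 3 := by
    have h9 : (q : ℤ) * (4 * (q : ℤ) ^ 2 - 9 * (e : ℤ) ^ 2) ≤ 256 * (m : ℤ) ^ 3 := by
      calc (q : ℤ) * (4 * (q : ℤ) ^ 2 - 9 * (e : ℤ) ^ 2) ≤ (4 * (m : ℤ)) * (64 * (m : ℤ) ^ 2) :=
            mul_le_mul h5' b5 b4.le (by omega)
        _ = _ := by ring
    have h10 : 0 ≤ (q : ℤ) * (4 * (q : ℤ) ^ 2 - 9 * (e : ℤ) ^ 2) := mul_nonneg hq0 b4.le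
    have h11 : (((q : ℤ) * (4 * (q : ℤ) ^ 2 - 9 * (e : ℤ) ^ 2)).natAbs : ℤ) ≤
        ((256 * m ^ 3 : ℕ) : ℤ) := by
      rw [Int.natAbs_of_nonneg h10]
      push_cast
      exact h9
    exact_mod_cast h11
  calc f (cur (e, q)) * cs (cur (e, q)) ≤ 62208 * (256 * m ^ 3) :=
        Nat.mul_le_mul (hf _).2 (h7.trans h8)
    _ = 15925248 * m ^ 3 := by ring
    _ ≤ Z := hZ

lemma G4_low' {f : ℤ × ℤ → ℕ} (hf : Bdd f) {m Z : ℕ} (hZ : 15925248 * m ^ 3 ≤ Z) :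
    (m : ℝ) ^ 2 / 2 ≤ ((Gm P4 f Z).ncard : ℝ) := by
  classical
  have h1 : (((Icc 1 m).filter Squarefree) ×ˢ (Ioc (2 * m) (4 * m))).card ≤ (Gm P4 f Z).ncard := by
    rw [Set.ncard_eq_toFinset_card _ (G4_fin hf Z)]
    refine card_le_card_of_injOn cur (fun x hx => ?_) (cur_inj m)
    rw [mem_coe, Set.Finite.mem_toFinset]
    exact cur_G4 hf hZ (mem_coe.1 hx)
  rw [card_product, Nat.card_Ioc] at h1
  have h2 : 4 * m - 2 * m = 2 * m := by omega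
  rw [h2] at h1
  have h3 : ((((Icc 1 m).filter Squarefree).card : ℕ) : ℝ) * (2 * m) ≤
      ((Gm P4 f Z).ncard : ℝ) := by
    exact_mod_cast h1
  have h4 := sqf_card m
  have h5 : (0 : ℝ) ≤ 2 * m := by positivity
  calc (m : ℝ) ^ 2 / 2 = m / 4 * (2 * m) := by ring
    _ ≤ ((((Icc 1 m).filter Squarefree).card : ℕ) : ℝ) * (2 * m) :=
        mul_le_mul_of_nonneg_right h4 h5
    _ ≤ _ := h3

/-- the lower bound for the number of the curves -/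
theorem G4_ge : ∃ (c : ℝ) (Z0 : ℕ), 0 < c ∧ ∀ f : ℤ × ℤ → ℕ, Bdd f → ∀ Z : ℕ, Z0 ≤ Z →
    c * (Z : ℝ) ^ ((2 : ℝ) / 3) ≤ ((Gm P4 f Z).ncard : ℝ) := by
  refine ⟨1 / (2 * 1000 ^ 2), 504 ^ 3, by positivity, fun f hf Z hZ => ?_⟩
  obtain ⟨t, ht0, ht⟩ : ∃ t : ℝ, 0 ≤ t ∧ t ^ 3 = Z := by
    refine ⟨(Z : ℝ) ^ ((1 : ℝ) / 3), by positivity, ?_⟩
    rw [← Real.rpow_natCast, ← Real.rpow_mul (Nat.cast_nonneg Z)]
    norm_num
  have ht2 : (Z : ℝ) ^ ((2 : ℝ) / 3) = t ^ 2 := by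
    rw [← ht, ← Real.rpow_natCast, ← Real.rpow_mul ht0, ← Real.rpow_natCast]
    norm_num
  have h504 : (504 : ℝ) ≤ t := by
    have : (504 : ℝ) ^ 3 ≤ t ^ 3 := by
      rw [ht]
      exact_mod_cast hZ
    exact (pow_le_pow_iff_left₀ (by norm_num) ht0 (by norm_num)).1 this
  obtain ⟨m, hm⟩ : ∃ m : ℕ, m = ⌊t / 252⌋₊ := ⟨_, rfl⟩
  have h1 : (m : ℝ) ≤ t / 252 := by
    rw [hm]
    exact Nat.floor_le (by positivity)
  have h2 : t / 252 < m + 1 := by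
    rw [hm]
    exact Nat.lt_floor_add_one _
  have h3 : 15925248 * m ^ 3 ≤ Z := by
    have h4 : (m : ℝ) ^ 3 ≤ (t / 252) ^ 3 := pow_le_pow_left₀ (Nat.cast_nonneg m) h1 3
    have h5 : 15925248 * (m : ℝ) ^ 3 ≤ Z := by
      rw [div_pow, ht] at h4
      have h6 : (0 : ℝ) ≤ Z := Nat.cast_nonneg Z
      calc 15925248 * (m : ℝ) ^ 3 ≤ 15925248 * ((Z : ℝ) / 252 ^ 3) :=
            mul_le_mul_of_nonneg_left h4 (by norm_num)
        _ ≤ Z := by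
            rw [← mul_div_assoc, div_le_iff₀ (by norm_num)]
            nlinarith
    exact_mod_cast h5
  have h4 := G4_low' hf h3
  refine le_trans ?_ h4
  rw [ht2]
  have h5 : t / 1000 ≤ m := by
    have : t / 252 - 1 ≤ m := by linarith
    refine le_trans ?_ this
    linarith
  have h6 : (t / 1000) ^ 2 ≤ (m : ℝ) ^ 2 := pow_le_pow_left₀ (by positivity) h5 2
  calc 1 / (2 * 1000 ^ 2) * t ^ 2 = (t / 1000) ^ 2 / 2 := by ring
    _ ≤ _ := by linarith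

lemma bdd1 : Bdd (fun _ : ℤ × ℤ => 1) := fun _ => ⟨le_rfl, by norm_num⟩

/-- the upper bound for the number of the curves -/
theorem G4_up : ∃ (C : ℝ) (Z0 : ℕ), 0 < C ∧ ∀ f : ℤ × ℤ → ℕ, Bdd f → ∀ Z : ℕ, Z0 ≤ Z →
    ((Gm P4 f Z).ncard : ℝ) ≤ C * (Z : ℝ) ^ ((2 : ℝ) / 3) := by
  obtain ⟨C, Z0, hC, h⟩ := Gm_up good_Ok
  refine ⟨3 * C, Z0, by positivity, fun f hf Z hZ => ?_⟩
  have h1 := ncard_le3 hf Z Set.univ
  have e1 : Gm P4 f Z ∩ {c | ph c ∈ Set.univ} = Gm P4 f Z := by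
    ext c
    simp
  rw [e1, Set.inter_univ] at h1
  have h2 := h _ bdd1 Z hZ
  calc ((Gm P4 f Z).ncard : ℝ) ≤ 3 * ((Gm Ok (fun _ => 1) Z).ncard : ℝ) := h1
    _ ≤ 3 * (C * (Z : ℝ) ^ ((2 : ℝ) / 3)) := mul_le_mul_of_nonneg_left h2 (by norm_num)
    _ = _ := by ring

/-- the two numbers of curves are of the same size -/
lemma comp4 : ∃ (R : ℝ) (Z0 : ℕ), 0 < R ∧ ∀ f : ℤ × ℤ → ℕ, Bdd f → ∀ Z : ℕ, Z0 ≤ Z →
    ((Gm Ok (fun _ => 1) Z).ncard : ℝ) ≤ R * ((Gm P4 f Z).ncard : ℝ) := by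
  obtain ⟨C, Z0, hC, h⟩ := Gm_up good_Ok
  obtain ⟨c, Z1, hc, h'⟩ := G4_ge
  refine ⟨C / c, max Z0 Z1, by positivity, fun f hf Z hZ => ?_⟩
  have h1 := h _ bdd1 Z ((le_max_left _ _).trans hZ)
  have h2 := h' f hf Z ((le_max_right _ _).trans hZ)
  calc ((Gm Ok (fun _ => 1) Z).ncard : ℝ) ≤ C * (Z : ℝ) ^ ((2 : ℝ) / 3) := h1
    _ = C / c * (c * (Z : ℝ) ^ ((2 : ℝ) / 3)) := by field_simp
    _ ≤ _ := mul_le_mul_of_nonneg_left h2 (by positivity)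

/-- **one exceptional set for all the twists and all the moments, by the conductor** -/
theorem con4 : ∃ (n : ℤ → ℤ × ℤ → ℝ) (X : Set (ℤ × ℤ)),
    (∀ c, P4 c → (∀ d : ℤ, d ≠ 0 → Bd (Sh (d ^ 2 * (ph c).1) (d ^ 3 * (ph c).2)) (n d c)) ∧
      ∃ e1 e2 e3 : ℤ, ∀ x : ℤ, x ^ 3 + (ph c).1 * x + (ph c).2 =
        (x - e1) * (x - e2) * (x - e3)) ∧
    (∀ f : ℤ × ℤ → ℕ, Bdd f →
      Tendsto (fun Z : ℕ => ((Gm P4 f Z ∩ X).ncard : ℝ) / (Gm P4 f Z).ncard) atTop (𝓝 0)) ∧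
    ∀ θ : ℝ, 0 < θ → ∀ A : ℝ, 0 ≤ A → ∃ C : ℝ, 0 ≤ C ∧ ∀ f : ℤ × ℤ → ℕ, Bdd f → ∀ Z : ℕ,
      ∀ S : Finset (ℤ × ℤ), (S : Set (ℤ × ℤ)) ⊆ Gm P4 f Z \ X → ∀ d : ℤ, d ≠ 0 →
      (d.natAbs : ℝ) ≤ (Z : ℝ) ^ A →
      ∑ c ∈ S, n d c ^ θ ≤
        C * (16 * 512 ^ θ) ^ d.natAbs.primeFactors.card * ((Gm P4 f Z).ncard : ℝ) := by
  classical
  obtain ⟨n, X, hn, hdens, hmom⟩ := Pool.Agent.Q17.CO.con good_Ok
  obtain ⟨R, Z0, hR, hcomp⟩ := comp4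
  have hnn : ∀ (c : ℤ × ℤ), Ok c → ∀ e : ℤ, e ≠ 0 → 0 ≤ n e c := by
    intro c hc e he
    exact le_trans (by positivity) ((hn c hc).1 e he).2
  refine ⟨fun d c => n d (ph c), {c | ph c ∈ X}, fun c hc => hn _ (ph_ok hc), fun f hf => ?_,
    fun θ hθ A hA => ?_⟩
  · have h1 := hdens _ bdd1
    have h2 : Tendsto (fun Z : ℕ => 3 * R * (((Gm Ok (fun _ => 1) Z ∩ X).ncard : ℝ) /
        (Gm Ok (fun _ => 1) Z).ncard)) atTop (𝓝 0) := by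
      have := h1.const_mul (3 * R)
      rwa [mul_zero] at this
    refine squeeze_zero' (Eventually.of_forall fun Z => by positivity) ?_ h2
    filter_upwards [eventually_ge_atTop Z0] with Z hZ
    have h3 := hcomp f hf Z hZ
    have h4 := ncard_le3 hf Z X
    rcases Nat.eq_zero_or_pos (Gm P4 f Z).ncard with h5 | h5
    · rw [h5, Nat.cast_zero, div_zero]
      positivity
    · have h5' : (0 : ℝ) < (Gm P4 f Z).ncard := by exact_mod_cast h5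
      rcases Nat.eq_zero_or_pos (Gm Ok (fun _ => 1) Z).ncard with h6 | h6
      · have h7 : ((Gm Ok (fun _ => 1) Z ∩ X).ncard : ℝ) = 0 := by
          have h8 : (Gm Ok (fun _ => 1) Z ∩ X).ncard ≤ (Gm Ok (fun _ => 1) Z).ncard :=
            Set.ncard_le_ncard Set.inter_subset_left (Gm_fin good_Ok bdd1 Z)
          have : (Gm Ok (fun _ => 1) Z ∩ X).ncard = 0 := by omega
          exact_mod_cast this
        rw [h7, mul_zero] at h4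
        rw [h7, zero_div, mul_zero]
        exact div_nonpos_of_nonpos_of_nonneg h4 h5'.le
      · have h6' : (0 : ℝ) < (Gm Ok (fun _ => 1) Z).ncard := by exact_mod_cast h6
        rw [div_le_iff₀ h5']
        calc ((Gm P4 f Z ∩ {c | ph c ∈ X}).ncard : ℝ)
            ≤ 3 * ((Gm Ok (fun _ => 1) Z ∩ X).ncard : ℝ) := h4
          _ = 3 * (((Gm Ok (fun _ => 1) Z ∩ X).ncard : ℝ) / (Gm Ok (fun _ => 1) Z).ncard) *
              (Gm Ok (fun _ => 1) Z).ncard := by field_simp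
          _ ≤ 3 * (((Gm Ok (fun _ => 1) Z ∩ X).ncard : ℝ) / (Gm Ok (fun _ => 1) Z).ncard) *
              (R * (Gm P4 f Z).ncard) := mul_le_mul_of_nonneg_left h3 (by positivity)
          _ = _ := by ring
  · obtain ⟨C, hC, h⟩ := hmom θ hθ A hA
    obtain ⟨Q, hQ⟩ : ∃ Q : ℝ, Q = ((Gm Ok (fun _ => 1) Z0).ncard : ℝ) := ⟨_, rfl⟩
    have hQ0 : 0 ≤ Q := by rw [hQ]; positivity
    refine ⟨3 * C * (R + Q), by positivity, fun f hf Z S hS d hd hdA => ?_⟩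
    have hSP : ∀ c ∈ S, P4 c := fun c hc => (hS (mem_coe.2 hc)).1.1
    have h1 := sum_le3 S hSP (fun c => n d c ^ θ)
      (fun c hc => Real.rpow_nonneg (hnn c hc d hd) θ)
    have h2 : ((S.image ph : Finset (ℤ × ℤ)) : Set (ℤ × ℤ)) ⊆ Gm Ok (fun _ => 1) Z \ X := by
      intro c' hc'
      obtain ⟨c, hc, rfl⟩ := mem_image.1 (mem_coe.1 hc')
      have h3 := hS (mem_coe.2 hc)
      exact ⟨ph_mem hf h3.1, fun h => h3.2 h⟩
    have h3 := h _ bdd1 Z _ h2 d hd hdA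
    obtain ⟨W, hW⟩ : ∃ W : ℝ, W = (16 * 512 ^ θ) ^ d.natAbs.primeFactors.card := ⟨_, rfl⟩
    have hW0 : 0 ≤ W := by rw [hW]; positivity
    rw [← hW] at h3 ⊢
    rcases S.eq_empty_or_nonempty with he | hne
    · rw [he, sum_empty]
      positivity
    · have h4 : ((Gm Ok (fun _ => 1) Z).ncard : ℝ) ≤ (R + Q) * ((Gm P4 f Z).ncard : ℝ) := by
        have h5 : (1 : ℝ) ≤ ((Gm P4 f Z).ncard : ℝ) := by
          have h6 : S.card ≤ (Gm P4 f Z).ncard := by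
            rw [← Set.ncard_coe_finset]
            exact Set.ncard_le_ncard (hS.trans Set.sdiff_subset) (G4_fin hf Z)
          have h7 : 1 ≤ (Gm P4 f Z).ncard := le_trans (card_pos.2 hne) h6
          exact_mod_cast h7
        rcases le_total Z0 Z with h6 | h6
        · calc ((Gm Ok (fun _ => 1) Z).ncard : ℝ) ≤ R * ((Gm P4 f Z).ncard : ℝ) := hcomp f hf Z h6
            _ ≤ _ := mul_le_mul_of_nonneg_right (by linarith) (by linarith)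
        · have h7 : ((Gm Ok (fun _ => 1) Z).ncard : ℝ) ≤ Q := by
            rw [hQ]
            have h8 : Gm Ok (fun _ => 1) Z ⊆ Gm Ok (fun _ => 1) Z0 :=
              fun c hc => ⟨hc.1, hc.2.trans h6⟩
            exact_mod_cast Set.ncard_le_ncard h8 (Gm_fin good_Ok bdd1 Z0)
          calc ((Gm Ok (fun _ => 1) Z).ncard : ℝ) ≤ Q := h7
            _ ≤ (R + Q) * 1 := by linarith
            _ ≤ _ := mul_le_mul_of_nonneg_left h5 (by linarith)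
      calc ∑ c ∈ S, n d (ph c) ^ θ ≤ 3 * ∑ c ∈ S.image ph, n d c ^ θ := h1
        _ ≤ 3 * (C * W * ((Gm Ok (fun _ => 1) Z).ncard : ℝ)) :=
            mul_le_mul_of_nonneg_left h3 (by norm_num)
        _ ≤ 3 * (C * W * ((R + Q) * ((Gm P4 f Z).ncard : ℝ))) := by
            apply mul_le_mul_of_nonneg_left _ (by norm_num)
            exact mul_le_mul_of_nonneg_left h4 (by positivity)
        _ = _ := by ring

end Pool.Agent.Q17.IG
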