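import Mathlib
import Pool.Agent.Y667.RZ.Sha
import Pool.Agent.Q17.IG.Cdr

/-! From the curves with full rational 2-torsion to the curves with a rational cyclic subgroup of
order 4: the quotients by a point of order two. -/

set_option autoImplicit false

namespace Pool.Agent.Q17.IG

open Finset Filter Topology

open Pool.Agent.W307.RT (Sh Cv LOW HasT)
open Pool.Agent.Y679.Cr (Ok cs isMin_of full_of Gm Bdd Good)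

/-- the minimal model with given parameters -/
lemma Lk_of {c : ℤ × ℤ} {e q : ℤ} (h1 : c.1 = q ^ 2 - 3 * e ^ 2) (h2 : c.2 = 2 * e ^ 3 - q ^ 2 * e)
    (hD : 4 * c.1 ^ 3 + 27 * c.2 ^ 2 ≠ 0) (hR : Rd c.1 c.2) :
    ∃ (c' : ℤ × ℤ) (u : ℕ) (r : ℤ), Lk c c' e q u r := by
  have hD' := hD
  rw [h1, h2, disc_eq] at hD'
  have e1 : 4 * (-(3 * e ^ 2 + 4 * q ^ 2)) ^ 3 + 27 * (2 * e ^ 3 - 8 * q ^ 2 * e) ^ 2 =
      -(16 * q ^ 2 * (4 * q ^ 2 - 9 * e ^ 2) ^ 2) := by ring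
  have h3 : 4 * (-(3 * e ^ 2 + 4 * q ^ 2)) ^ 3 + 27 * (2 * e ^ 3 - 8 * q ^ 2 * e) ^ 2 ≠ 0 := by
    rw [e1, neg_ne_zero]
    have hq : q ≠ 0 := by
      intro h
      apply hD'
      rw [h]
      ring
    exact mul_ne_zero (mul_ne_zero (by norm_num) (pow_ne_zero 2 hq))
      (pow_ne_zero 2 (right_ne_zero_of_mul hD'))
  obtain ⟨u, hu, A', B', hA, hB, hr⟩ := min_red _ _ _ le_rfl h3
  have hu0 : (u : ℚ) ≠ 0 := by exact_mod_cast hu.ne'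
  obtain ⟨n, hn⟩ := int_of_rat (x := -2 * (e : ℚ) / (u : ℚ) ^ 2) (a := 0) (b := A') (c := B') (by
    have hA' : (A' : ℚ) = -(3 * (e : ℚ) ^ 2 + 4 * q ^ 2) / (u : ℚ) ^ 4 := by
      rw [eq_div_iff (pow_ne_zero 4 hu0), mul_comm]
      exact_mod_cast hA.symm
    have hB' : (B' : ℚ) = (2 * (e : ℚ) ^ 3 - 8 * q ^ 2 * e) / (u : ℚ) ^ 6 := by
      rw [eq_div_iff (pow_ne_zero 6 hu0), mul_comm]
      exact_mod_cast hB.symm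
    rw [hA', hB']
    push_cast
    field_simp
    ring)
  refine ⟨(A', B'), u, n, h1, h2, hD, hR, hu, hA.symm, hB.symm, ?_, hr⟩
  have h4 : (u : ℚ) ^ 2 * n = -2 * e := by
    rw [hn]
    field_simp
  exact_mod_cast h4

/-- **the quotient of a curve with full 2-torsion**: `r`, `s`, `t` are the roots, `r + s + t = 0` -/
theorem quot {c' : ℤ × ℤ} (hD : 4 * c'.1 ^ 3 + 27 * c'.2 ^ 2 ≠ 0) (hR : Rd c'.1 c'.2) {r k : ℤ}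
    (h1 : 4 * c'.1 = -(3 * r ^ 2 + k ^ 2)) (h2 : 4 * c'.2 = -(r * (r ^ 2 - k ^ 2))) :
    ∃ (c : ℤ × ℤ) (e q : ℤ) (u : ℕ) (r' : ℤ), Lk c c' e q u r' ∧
      |c.1| ≤ |k ^ 2 - 12 * r ^ 2| ∧ |c.2| ≤ |2 * k ^ 2 * r - 16 * r ^ 3| := by
  have hdisc : 16 * (4 * c'.1 ^ 3 + 27 * c'.2 ^ 2) = -(k ^ 2 * (k ^ 2 - 9 * r ^ 2) ^ 2) := by
    have e1 : 16 * (4 * c'.1 ^ 3 + 27 * c'.2 ^ 2) = (4 * c'.1) ^ 3 + 27 * (4 * c'.2) ^ 2 := by ring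
    rw [e1, h1, h2]
    ring
  have hne : k ^ 2 * (k ^ 2 - 9 * r ^ 2) ^ 2 ≠ 0 := by
    intro h
    apply hD
    rw [h, neg_zero] at hdisc
    omega
  have hk : k ≠ 0 := by
    intro h
    apply hne
    rw [h]
    ring
  have h9 : k ^ 2 - 9 * r ^ 2 ≠ 0 := by
    intro h
    apply hne
    rw [h]
    ring
  have h3 : 4 * (k ^ 2 - 12 * r ^ 2) ^ 3 + 27 * (2 * k ^ 2 * r - 16 * r ^ 3) ^ 2 ≠ 0 := by
    have e1 : 4 * (k ^ 2 - 12 * r ^ 2) ^ 3 + 27 * (2 * k ^ 2 * r - 16 * r ^ 3) ^ 2 =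
        4 * k ^ 4 * (k ^ 2 - 9 * r ^ 2) := by ring
    rw [e1]
    exact mul_ne_zero (mul_ne_zero (by norm_num) (pow_ne_zero 4 hk)) h9
  obtain ⟨v, hv, A, B, hA, hB, hr⟩ := min_red _ _ _ le_rfl h3
  have hv0 : (v : ℚ) ≠ 0 := by exact_mod_cast hv.ne'
  have hvz : (v : ℤ) ≠ 0 := by exact_mod_cast hv.ne'
  obtain ⟨e, he⟩ := int_of_rat (x := -2 * (r : ℚ) / (v : ℚ) ^ 2) (a := 0) (b := A) (c := B) (by
    have hA' : (A : ℚ) = ((k : ℚ) ^ 2 - 12 * r ^ 2) / (v : ℚ) ^ 4 := by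
      rw [eq_div_iff (pow_ne_zero 4 hv0), mul_comm]
      exact_mod_cast hA.symm
    have hB' : (B : ℚ) = (2 * (k : ℚ) ^ 2 * r - 16 * r ^ 3) / (v : ℚ) ^ 6 := by
      rw [eq_div_iff (pow_ne_zero 6 hv0), mul_comm]
      exact_mod_cast hB.symm
    rw [hA', hB']
    push_cast
    field_simp
    ring)
  have he' : (v : ℤ) ^ 2 * e = -2 * r := by
    have h4 : (v : ℚ) ^ 2 * e = -2 * r := by
      rw [he]
      field_simp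
    exact_mod_cast h4
  have hk2 : ((v : ℤ) ^ 2) ^ 2 ∣ k ^ 2 := by
    refine ⟨A + 3 * e ^ 2, ?_⟩
    have e1 : ((v : ℤ) ^ 2) ^ 2 * (A + 3 * e ^ 2) = (v : ℤ) ^ 4 * A + 3 * ((v : ℤ) ^ 2 * e) ^ 2 := by
      ring
    rw [e1, ← hA, he']
    ring
  obtain ⟨q, hq⟩ := (Int.pow_dvd_pow_iff (by norm_num)).1 hk2
  have hv4 : (v : ℤ) ^ 4 ≠ 0 := pow_ne_zero 4 hvz
  have hv6 : (v : ℤ) ^ 6 ≠ 0 := pow_ne_zero 6 hvz
  have hc1 : A = q ^ 2 - 3 * e ^ 2 := by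
    apply mul_left_cancel₀ hv4
    have e1 : (v : ℤ) ^ 4 * (q ^ 2 - 3 * e ^ 2) = ((v : ℤ) ^ 2 * q) ^ 2 -
      3 * ((v : ℤ) ^ 2 * e) ^ 2 := by ring
    rw [e1, ← hA, ← hq, he']
    ring
  have hc2 : B = 2 * e ^ 3 - q ^ 2 * e := by
    apply mul_left_cancel₀ hv6
    have e1 : (v : ℤ) ^ 6 * (2 * e ^ 3 - q ^ 2 * e) = 2 * ((v : ℤ) ^ 2 * e) ^ 3 -
      ((v : ℤ) ^ 2 * q) ^ 2 * ((v : ℤ) ^ 2 * e) := by ring
    rw [e1, ← hB, ← hq, he']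
    ring
  have hDc : 4 * A ^ 3 + 27 * B ^ 2 ≠ 0 := by
    intro h
    apply h3
    rw [hA, hB]
    have e1 : 4 * ((v : ℤ) ^ 4 * A) ^ 3 + 27 * ((v : ℤ) ^ 6 * B) ^ 2 =
      (v : ℤ) ^ 12 * (4 * A ^ 3 + 27 * B ^ 2) := by ring
    rw [e1, h, mul_zero]
  obtain ⟨c'', u, r', L⟩ := Lk_of (c := (A, B)) hc1 hc2 hDc hr
  have hcc : c' = c'' := by
    have g1 : ((u * v : ℕ) : ℤ) ^ 4 * c''.1 = ((2 : ℕ) : ℤ) ^ 4 * c'.1 := by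
      have e1 : ((u * v : ℕ) : ℤ) ^ 4 * c''.1 = (v : ℤ) ^ 4 * ((u : ℤ) ^ 4 * c''.1) := by
        push_cast
        ring
      have e2 : (v : ℤ) ^ 4 * -(3 * e ^ 2 + 4 * q ^ 2) = -(3 * ((v : ℤ) ^ 2 * e) ^ 2 +
        4 * ((v : ℤ) ^ 2 * q) ^ 2) := by ring
      rw [e1, L.h1, e2, ← hq, he']
      push_cast
      linear_combination (-4) * h1
    have g2 : ((u * v : ℕ) : ℤ) ^ 6 * c''.2 = ((2 : ℕ) : ℤ) ^ 6 * c'.2 := by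
      have e1 : ((u * v : ℕ) : ℤ) ^ 6 * c''.2 = (v : ℤ) ^ 6 * ((u : ℤ) ^ 6 * c''.2) := by
        push_cast
        ring
      have e2 : (v : ℤ) ^ 6 * (2 * e ^ 3 - 8 * q ^ 2 * e) = 2 * ((v : ℤ) ^ 2 * e) ^ 3 -
        8 * ((v : ℤ) ^ 2 * q) ^ 2 * ((v : ℤ) ^ 2 * e) := by ring
      rw [e1, L.h2, e2, ← hq, he']
      push_cast
      linear_combination (-16) * h2
    obtain ⟨k1, k2⟩ := red_unique L.hR' hR (by norm_num : 0 < 2) (Nat.mul_pos L.hu hv) g1 g2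
    exact Prod.ext k1.symm k2.symm
  rw [← hcc] at L
  refine ⟨(A, B), e, q, u, r', L, ?_, ?_⟩
  · change |A| ≤ _
    rw [hA, abs_mul]
    have : 1 ≤ |(v : ℤ) ^ 4| := Int.one_le_abs hv4
    exact le_mul_of_one_le_left (abs_nonneg A) this
  · change |B| ≤ _
    rw [hB, abs_mul]
    have : 1 ≤ |(v : ℤ) ^ 6| := Int.one_le_abs hv6
    exact le_mul_of_one_le_left (abs_nonneg B) this

/-- the isogenous curve is determined by the curve and the root -/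
lemma Lk.unique' {c c1 c2 : ℤ × ℤ} {e q1 q2 : ℤ} {u1 u2 : ℕ} {r1 r2 : ℤ}
    (L1 : Lk c c1 e q1 u1 r1) (L2 : Lk c c2 e q2 u2 r2) : c1 = c2 := by
  have hq : q1 ^ 2 = q2 ^ 2 := by
    have := L1.hc1
    rw [L2.hc1] at this
    linarith
  have g1 : (u1 : ℤ) ^ 4 * c1.1 = (u2 : ℤ) ^ 4 * c2.1 := by
    rw [L1.h1, L2.h1, hq]
  have g2 : (u1 : ℤ) ^ 6 * c1.2 = (u2 : ℤ) ^ 6 * c2.2 := by
    rw [L1.h2, L2.h2, hq]
  obtain ⟨k1, k2⟩ := red_unique L1.hR' L2.hR' L2.hu L1.hu g1 g2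
  exact Prod.ext k1 k2

end Pool.Agent.Q17.IG
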