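import Mathlib
import Pool.Agent.Q17.IG.Pos

/-! Positive proportions for the curves with a rational cyclic subgroup of order 4, from positive
proportions for the curves with full rational 2-torsion. -/

set_option autoImplicit false

namespace Pool.Agent.Q17.IG

open Finset Filter Topology

open Pool.Agent.W307.RT (Sh Cv LOW HasT)
open Pool.Agent.Y679.Cr (Ok cs isMin_of full_of Gm Bdd Good)
open Pool.Agent.TH841.SH.D (Pt act Sha)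

/-- the coefficients and the roots -/
lemma coeff_roots {A B e1 e2 e3 : ℤ}
    (h : ∀ x : ℤ, x ^ 3 + A * x + B = (x - e1) * (x - e2) * (x - e3)) :
    4 * A = -(3 * e1 ^ 2 + (e2 - e3) ^ 2) ∧ 4 * B = -(e1 * (e1 ^ 2 - (e2 - e3) ^ 2)) := by
  obtain ⟨hs, hA, hB⟩ := Pool.Agent.W402.FK.coef A B e1 e2 e3 h
  have h1 : e1 = -e2 - e3 := by linarith
  rw [hA, hB, h1]
  constructor <;> ring

/-- the quotient by the first root, with its height -/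
theorem quotH {H : ℕ} {c' : ℤ × ℤ} (hc : c' ∈ Cv 2 H) :
    ∃ (c : ℤ × ℤ), (∃ (e q : ℤ) (u : ℕ) (r' : ℤ), Lk c c' e q u r') ∧ c ∈ Fm (4096 * H) := by
  classical
  unfold Cv at hc
  obtain ⟨-, hD, hA, hB, hR, hT⟩ := mem_filter.1 hc
  obtain ⟨e1, e2, e3, he⟩ := roots_Ok c' ⟨isMin_of hD hR, full_of hT⟩
  obtain ⟨h1, h2⟩ := coeff_roots he
  obtain ⟨c, e, q, u, r', L, b1, b2⟩ := quot hD hR h1 h2
  refine ⟨c, ⟨e, q, u, r', L⟩, ?_⟩
  obtain ⟨k, hk⟩ : ∃ k, k = e2 - e3 := ⟨_, rfl⟩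
  rw [← hk] at h1 h2 b1 b2
  obtain ⟨m, hm⟩ : ∃ m, m = |c'.1| := ⟨_, rfl⟩
  have hm0 : 0 ≤ m := by rw [hm]; exact abs_nonneg _
  have hm4 : 4 * m = 3 * e1 ^ 2 + k ^ 2 := by
    have h3 : 4 * c'.1 ≤ 0 := by
      rw [h1]
      have := sq_nonneg e1
      have := sq_nonneg k
      linarith
    have h4 : c'.1 ≤ 0 := by linarith
    rw [hm, abs_of_nonpos h4]
    linarith
  have c1 : |c.1| ≤ 16 * m := by
    refine b1.trans ?_
    rw [abs_le]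
    have := sq_nonneg e1
    have := sq_nonneg k
    constructor <;> linarith
  have c2 : 27 * c.2 ^ 2 ≤ 16384 * m ^ 3 := by
    have h3 : c.2 ^ 2 ≤ (2 * k ^ 2 * e1 - 16 * e1 ^ 3) ^ 2 := by
      rw [← sq_abs c.2, ← sq_abs (2 * k ^ 2 * e1 - 16 * e1 ^ 3)]
      exact pow_le_pow_left₀ (abs_nonneg _) b2 2
    have e4 : (2 * k ^ 2 * e1 - 16 * e1 ^ 3) ^ 2 = 4 * (e1 ^ 2 * (k ^ 2 - 8 * e1 ^ 2) ^ 2) := by ring
    have h5 : 3 * e1 ^ 2 ≤ 4 * m := by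
      have := sq_nonneg k
      linarith
    have h6 : (3 * (k ^ 2 - 8 * e1 ^ 2)) ^ 2 ≤ (32 * m) ^ 2 := by
      have h7 : |3 * (k ^ 2 - 8 * e1 ^ 2)| ≤ |32 * m| := by
        rw [abs_of_nonneg (by linarith : (0 : ℤ) ≤ 32 * m), abs_le]
        have := sq_nonneg e1
        have := sq_nonneg k
        constructor <;> linarith
      exact sq_le_sq.2 h7
    have h8 : (3 * e1 ^ 2) * (3 * (k ^ 2 - 8 * e1 ^ 2)) ^ 2 ≤ (4 * m) * (32 * m) ^ 2 :=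
      mul_le_mul h5 h6 (sq_nonneg _) (by linarith)
    have e5 : (3 * e1 ^ 2) * (3 * (k ^ 2 - 8 * e1 ^ 2)) ^ 2 = 27 * (e1 ^ 2 * (k ^ 2 - 8 * e1 ^ 2) ^ 2) := by
      ring
    have e6 : (4 * m) * (32 * m) ^ 2 = 4096 * m ^ 3 := by ring
    rw [e5, e6] at h8
    rw [e4] at h3
    linarith
  have hA' : 4 * m ^ 3 ≤ (H : ℤ) := by
    rw [hm]
    exact hA
  rw [mem_Fm]
  refine ⟨L.hD, ?_, ?_, L.hR, ⟨e, q, L.hc1, L.hc2⟩⟩
  · have h3 : |c.1| ^ 3 ≤ (16 * m) ^ 3 := pow_le_pow_left₀ (abs_nonneg _) c1 3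
    push_cast
    have e4 : (16 * m) ^ 3 = 4096 * m ^ 3 := by ring
    rw [e4] at h3
    linarith
  · push_cast
    linarith

lemma root3 (A B : ℤ) (S : Finset ℤ) (h : ∀ e ∈ S, e ^ 3 + A * e + B = 0) : S.card ≤ 3 := by
  classical
  obtain ⟨P, hP⟩ : ∃ P : Polynomial ℤ, P = Polynomial.X ^ 3 + Polynomial.C A * Polynomial.X +
    Polynomial.C B := ⟨_, rfl⟩
  have hdeg : P.natDegree = 3 := by
    rw [hP]
    compute_degree!
  have hne : P ≠ 0 := by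
    intro h0
    rw [h0, Polynomial.natDegree_zero] at hdeg
    omega
  calc S.card ≤ P.roots.toFinset.card := card_le_card (fun e he => by
        rw [Multiset.mem_toFinset, Polynomial.mem_roots hne, Polynomial.IsRoot, hP]
        simp only [Polynomial.eval_add, Polynomial.eval_mul, Polynomial.eval_pow,
          Polynomial.eval_X, Polynomial.eval_C]
        exact h e he)
    _ ≤ Multiset.card P.roots := Multiset.toFinset_card_le _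
    _ ≤ P.natDegree := P.card_roots'
    _ = 3 := hdeg

/-- the curves linked with a curve of `T` with full rational 2-torsion -/
def Q4 (T : ℤ × ℤ → Prop) (c : ℤ × ℤ) : Prop :=
  ∃ c' : ℤ × ℤ, T c' ∧ HasT 2 (Sh c'.1 c'.2) ∧ ∃ (e q : ℤ) (u : ℕ) (r : ℤ), Lk c c' e q u r

/-- the image of a set of curves with full 2-torsion -/
theorem img {T : ℤ × ℤ → Prop} {H : ℕ} (S : Finset (ℤ × ℤ))
    (hS : (S : Set (ℤ × ℤ)) ⊆ {k | k ∈ Cv 2 H ∧ T k}) :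
    ∃ R : Finset (ℤ × ℤ), (∀ c ∈ R, Q4 T c ∧ c ∈ Fm (4096 * H) ∧
      ∃ c' ∈ S, ∃ (e q : ℤ) (u : ℕ) (r : ℤ), Lk c c' e q u r) ∧ S.card ≤ 3 * R.card := by
  classical
  have key : ∀ c' : ℤ × ℤ, ∃ x : (ℤ × ℤ) × ℤ, c' ∈ S →
      (∃ (q : ℤ) (u : ℕ) (r : ℤ), Lk x.1 c' x.2 q u r) ∧ x.1 ∈ Fm (4096 * H) := by
    intro c'
    by_cases hc : c' ∈ S
    · obtain ⟨c, ⟨e, q, u, r, L⟩, h⟩ := quotH (hS (mem_coe.2 hc)).1
      exact ⟨(c, e), fun _ => ⟨⟨q, u, r, L⟩, h⟩⟩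
    · exact ⟨0, fun h => absurd h hc⟩
  choose x hx using key
  refine ⟨S.image (fun c' => (x c').1), fun c hc => ?_, ?_⟩
  · obtain ⟨c', hc', rfl⟩ := mem_image.1 hc
    obtain ⟨⟨q, u, r, L⟩, h⟩ := hx c' hc'
    have hT := hS (mem_coe.2 hc')
    refine ⟨⟨c', hT.2, ?_, _, q, u, r, L⟩, h, c', hc', _, q, u, r, L⟩
    have h1 := hT.1
    unfold Cv at h1
    exact (mem_filter.1 h1).2.2.2.2.2
  · refine card_le_mul_card_image S 3 fun c hc => ?_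
    obtain ⟨b, hb, rfl⟩ := mem_image.1 hc
    have h1 : (S.filter (fun c' => (x c').1 = (x b).1)).card ≤
        ((S.filter (fun c' => (x c').1 = (x b).1)).image (fun c' => (x c').2)).card := by
      rw [card_image_of_injOn]
      intro c1 h1 c2 h2 h12
      rw [mem_coe, mem_filter] at h1 h2
      obtain ⟨⟨q, u, r, L⟩, -⟩ := hx c1 h1.1
      obtain ⟨⟨q', u', r', L'⟩, -⟩ := hx c2 h2.1
      have h12' : (x c1).2 = (x c2).2 := h12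
      rw [h1.2, h12'] at L
      rw [h2.2] at L'
      exact L.unique' L'
    refine h1.trans (root3 (x b).1.1 (x b).1.2 _ fun e he => ?_)
    obtain ⟨c1, hc1, rfl⟩ := mem_image.1 he
    rw [mem_filter] at hc1
    obtain ⟨⟨q, u, r, L⟩, -⟩ := hx c1 hc1.1
    rw [← hc1.2, L.hc1, L.hc2]
    ring

/-- the upper bound for the number of the curves -/
lemma Fm_up (H : ℕ) (M : ℝ) (hM : 1 ≤ M) (hM6 : M ^ 6 = H) : ((Fm H).card : ℝ) ≤ 841 * M ^ 2 := by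
  classical
  obtain ⟨N, hN⟩ : ∃ N : ℕ, N = ⌊14 * M⌋₊ := ⟨_, rfl⟩
  have hN1 : (N : ℝ) ≤ 14 * M := by
    rw [hN]
    exact Nat.floor_le (by linarith)
  have h1 : (Fm H).card ≤ (Icc (-(N : ℤ)) N ×ˢ Icc (-(N : ℤ)) N).card := by
    refine card_le_card_of_injOn df (fun c hc => ?_) (df_inj H)
    obtain ⟨-, h2, h3⟩ := df_bd H c (mem_coe.1 hc)
    have key : ∀ x : ℤ, x.natAbs ^ 6 ≤ 14 ^ 6 * H → x ∈ Icc (-(N : ℤ)) N := by
      intro x hx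
      have h4 : ((x.natAbs : ℕ) : ℝ) ^ 6 ≤ (14 * M) ^ 6 := by
        rw [mul_pow, hM6]
        exact_mod_cast hx
      have h5 : ((x.natAbs : ℕ) : ℝ) ≤ 14 * M :=
        (pow_le_pow_iff_left₀ (Nat.cast_nonneg _) (by linarith) (by norm_num)).1 h4
      have h6 : x.natAbs ≤ N := by
        rw [hN]
        exact Nat.le_floor h5
      rw [mem_Icc]
      omega
    rw [mem_coe, mem_product]
    exact ⟨key _ h2, key _ h3⟩
  rw [card_product, Int.card_Icc] at h1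
  have h2 : ((N : ℤ) + 1 - -(N : ℤ)).toNat = 2 * N + 1 := by omega
  rw [h2] at h1
  have h3 : ((Fm H).card : ℝ) ≤ (2 * N + 1) * (2 * N + 1) := by exact_mod_cast h1
  have h4 : (2 * (N : ℝ) + 1) ≤ 29 * M := by linarith
  calc ((Fm H).card : ℝ) ≤ (2 * N + 1) * (2 * N + 1) := h3
    _ ≤ (29 * M) * (29 * M) := mul_le_mul h4 h4 (by positivity) (by linarith)
    _ = _ := by ring

open Classical in
/-- **positive proportions, by height** -/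
theorem posH4 {T : ℤ × ℤ → Prop} (hT : ∃ c : ℝ, 0 < c ∧ ∃ H0 : ℕ, ∀ H : ℕ, H0 ≤ H →
      ∃ S : Finset (ℤ × ℤ), (S : Set (ℤ × ℤ)) ⊆ {k | k ∈ Cv 2 H ∧ T k} ∧
      c * ((Cv 2 H).card : ℝ) ≤ (S.card : ℝ)) :
    ∃ δ : ℝ, 0 < δ ∧ ∃ H0 : ℕ, ∀ H : ℕ, H0 ≤ H →
      δ * ((Fm H).card : ℝ) ≤ (((Fm H).filter (Q4 T)).card : ℝ) := by
  obtain ⟨c, hc, H0, h⟩ := hT
  obtain ⟨c2, C, T0, hc2, hlow⟩ := Pool.Agent.W672.FK.lowf
  obtain ⟨l, hl⟩ : ∃ l : ℕ, l = 8 * (C + 1) := ⟨_, rfl⟩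
  have hl0 : (0 : ℝ) < l := by
    have : 0 < l := by omega
    exact_mod_cast this
  refine ⟨c * c2 / (3 * (4 * (l : ℝ) ^ 2) * 841), by positivity,
    max (4096 * (H0 + 1)) ((2 * l * (T0 + 1)) ^ 6), fun H hH => ?_⟩
  have hH1 : 4096 * (H0 + 1) ≤ H := (le_max_left _ _).trans hH
  have hH2 : (2 * l * (T0 + 1)) ^ 6 ≤ H := (le_max_right _ _).trans hH
  obtain ⟨M, hM0, hM⟩ : ∃ M : ℝ, 0 ≤ M ∧ M ^ 6 = H := by
    refine ⟨(H : ℝ) ^ ((1 : ℝ) / 6), by positivity, ?_⟩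
    rw [← Real.rpow_natCast, ← Real.rpow_mul (Nat.cast_nonneg H)]
    norm_num
  have hMl : 2 * (l : ℝ) * (T0 + 1) ≤ M := by
    have : (2 * (l : ℝ) * (T0 + 1)) ^ 6 ≤ M ^ 6 := by
      rw [hM]
      exact_mod_cast hH2
    exact (pow_le_pow_iff_left₀ (by positivity) hM0 (by norm_num)).1 this
  have hl8 : (8 : ℝ) ≤ l := by
    have : 8 ≤ l := by omega
    exact_mod_cast this
  have hM1 : 1 ≤ M := by
    have : (0 : ℝ) ≤ T0 := Nat.cast_nonneg _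
    nlinarith
  obtain ⟨t, ht⟩ : ∃ t : ℕ, t = ⌊M / l⌋₊ := ⟨_, rfl⟩
  have ht1 : (t : ℝ) ≤ M / l := by
    rw [ht]
    exact Nat.floor_le (by positivity)
  have ht2 : M / l < t + 1 := by
    rw [ht]
    exact Nat.lt_floor_add_one _
  have hMl2 : 2 * ((T0 : ℝ) + 1) ≤ M / l := by
    rw [le_div_iff₀ hl0]
    linarith
  have ht3 : T0 ≤ t := by
    have : (T0 : ℝ) < t + 1 := by
      have : (0 : ℝ) ≤ T0 := Nat.cast_nonneg _
      linarith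
    have : T0 < t + 1 := by exact_mod_cast this
    omega
  have ht4 : M / (2 * l) ≤ t := by
    have e1 : M / (2 * l) = M / l / 2 := by
      field_simp
    rw [e1]
    have : (0 : ℝ) ≤ T0 := Nat.cast_nonneg _
    linarith
  have hCt : C * t ^ 6 ≤ H / 4096 := by
    rw [Nat.le_div_iff_mul_le (by norm_num)]
    have h1 : ((l : ℝ) * t) ^ 6 ≤ M ^ 6 := by
      apply pow_le_pow_left₀ (by positivity)
      rw [le_div_iff₀ hl0] at ht1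
      linarith
    rw [hM] at h1
    have h2 : (l * t) ^ 6 ≤ H := by exact_mod_cast h1
    refine le_trans ?_ h2
    rw [hl, mul_pow, mul_pow]
    have h3 : C ≤ (C + 1) ^ 6 := by
      calc C ≤ C + 1 := Nat.le_succ C
        _ ≤ (C + 1) ^ 6 := Nat.le_self_pow (by norm_num) _
    calc C * t ^ 6 * 4096 ≤ (C + 1) ^ 6 * t ^ 6 * 8 ^ 6 := by gcongr; norm_num
      _ = 8 ^ 6 * (C + 1) ^ 6 * t ^ 6 := by ring
  have h3 := hlow t (H / 4096) ht3 hCt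
  have hH3 : H0 ≤ H / 4096 := by
    rw [Nat.le_div_iff_mul_le (by norm_num)]
    omega
  obtain ⟨S, hS, hcard⟩ := h _ hH3
  obtain ⟨R, hR, hRc⟩ := img S hS
  have h4 : R ⊆ (Fm H).filter (Q4 T) := by
    intro x hx
    obtain ⟨g1, g2, -⟩ := hR x hx
    rw [mem_filter]
    exact ⟨Fm_mono (Nat.mul_div_le H 4096) g2, g1⟩
  have h5 : (S.card : ℝ) ≤ 3 * (((Fm H).filter (Q4 T)).card : ℝ) := by
    have : S.card ≤ 3 * ((Fm H).filter (Q4 T)).card :=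
      hRc.trans (Nat.mul_le_mul_left 3 (card_le_card h4))
    exact_mod_cast this
  have h6 := Fm_up H M hM1 hM
  have h7 : (M / (2 * l)) ^ 2 ≤ (t : ℝ) ^ 2 := pow_le_pow_left₀ (by positivity) ht4 2
  have h8 : c * (c2 * (M / (2 * l)) ^ 2) ≤ 3 * (((Fm H).filter (Q4 T)).card : ℝ) :=
    calc c * (c2 * (M / (2 * l)) ^ 2) ≤ c * (c2 * (t : ℝ) ^ 2) := by gcongr
      _ ≤ c * ((Cv 2 (H / 4096)).card : ℝ) := by gcongr
      _ ≤ S.card := hcard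
      _ ≤ _ := h5
  calc c * c2 / (3 * (4 * (l : ℝ) ^ 2) * 841) * ((Fm H).card : ℝ)
      ≤ c * c2 / (3 * (4 * (l : ℝ) ^ 2) * 841) * (841 * M ^ 2) :=
        mul_le_mul_of_nonneg_left h6 (by positivity)
    _ = c * (c2 * (M / (2 * l)) ^ 2) / 3 := by
        field_simp
        ring
    _ ≤ _ := by linarith

/-- **positive proportions, by the conductor** -/
theorem posC4 {T : ℤ × ℤ → Prop} (hT : ∃ c : ℝ, 0 < c ∧ ∃ H0 : ℕ, ∀ H : ℕ, H0 ≤ H →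
      ∃ S : Finset (ℤ × ℤ), (S : Set (ℤ × ℤ)) ⊆ {k | k ∈ Cv 2 H ∧ T k} ∧
      c * ((Cv 2 H).card : ℝ) ≤ (S.card : ℝ)) :
    ∃ δ : ℝ, 0 < δ ∧ ∀ f : ℤ × ℤ → ℕ, Bdd f → ∀ᶠ Z : ℕ in atTop,
      δ ≤ ((Gm P4 f Z ∩ {k | Q4 T k}).ncard : ℝ) / (Gm P4 f Z).ncard := by
  classical
  obtain ⟨c, hc, H0, h⟩ := hT
  obtain ⟨C, Z1, hC, hup⟩ := G4_up
  obtain ⟨c', Z2, hc', hlo⟩ := Pool.Agent.Y679.Cr.low2 good_Ok.low
  obtain ⟨c3, Z3, hc3, hge⟩ := G4_ge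
  refine ⟨c * c' / (3 * C), by positivity, fun f hf => ?_⟩
  filter_upwards [eventually_ge_atTop Z1, eventually_ge_atTop Z2, eventually_ge_atTop Z3,
    eventually_ge_atTop (62208 * (H0 + 1)), eventually_ge_atTop 1] with Z h1 h2 h2' h3 h3'
  have h4' : (0 : ℝ) < ((Gm P4 f Z).ncard : ℝ) := by
    have h5 := hge f hf Z h2'
    have h6 : (0 : ℝ) < (Z : ℝ) ^ ((2 : ℝ) / 3) := by
      have : (0 : ℝ) < Z := by exact_mod_cast h3'
      positivity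
    have : 0 < c3 * (Z : ℝ) ^ ((2 : ℝ) / 3) := by positivity
    linarith
  rw [le_div_iff₀ h4']
  have h5 : H0 ≤ (Z / 62208) ^ 2 := by
    have h6 : H0 + 1 ≤ Z / 62208 := by
      rw [Nat.le_div_iff_mul_le (by norm_num)]
      linarith
    nlinarith
  obtain ⟨S, hS, hcard⟩ := h _ h5
  obtain ⟨R, hR, hRc⟩ := img S hS
  have h6 : (R : Set (ℤ × ℤ)) ⊆ Gm P4 f Z ∩ {k | Q4 T k} := by
    intro x hx
    obtain ⟨g1, g2, c1, hc1, e, q, u, r, L⟩ := hR x (mem_coe.1 hx)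
    refine ⟨⟨⟨L.hD, L.hR, e, q, L.hc1, L.hc2⟩, ?_⟩, g1⟩
    have h7 := Pool.Agent.Y679.Cr.sub good_Ok.ok good_Ok.cv (f := fun _ => 62208)
      (fun _ _ => le_rfl) Z (mem_coe.2 (hS (mem_coe.2 hc1)).1)
    have h8 : 62208 * cs c1 ≤ Z := h7.2
    rw [L.cond] at h8
    exact (Nat.mul_le_mul_right _ (hf x).2).trans h8
  have h7 : (R.card : ℝ) ≤ ((Gm P4 f Z ∩ {k | Q4 T k}).ncard : ℝ) := by
    rw [← Set.ncard_coe_finset]
    exact Nat.cast_le.2 (Set.ncard_le_ncard h6 ((G4_fin hf Z).subset Set.inter_subset_left))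
  have h8 : (S.card : ℝ) ≤ 3 * (R.card : ℝ) := by exact_mod_cast hRc
  have h9 := hlo Z h2
  have h10 := hup f hf Z h1
  calc c * c' / (3 * C) * ((Gm P4 f Z).ncard : ℝ)
      ≤ c * c' / (3 * C) * (C * (Z : ℝ) ^ ((2 : ℝ) / 3)) :=
        mul_le_mul_of_nonneg_left h10 (by positivity)
    _ = c * (c' * (Z : ℝ) ^ ((2 : ℝ) / 3)) / 3 := by field_simp
    _ ≤ c * ((Cv 2 ((Z / 62208) ^ 2)).card : ℝ) / 3 := by gcongr
    _ ≤ (R.card : ℝ) := by linarith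
    _ ≤ _ := h7

/-- the curves with 2-Selmer group of order 4 -/
def Sel4 (k : ℤ × ℤ) : Prop := (Pool.Agent.W307.SE.SelR k.1 k.2).Finite ∧
  (Pool.Agent.W307.SE.SelR k.1 k.2).ncard = 4

lemma sel4_pos : ∃ c : ℝ, 0 < c ∧ ∃ H0 : ℕ, ∀ H : ℕ, H0 ≤ H →
      ∃ S : Finset (ℤ × ℤ), (S : Set (ℤ × ℤ)) ⊆ {k | k ∈ Cv 2 H ∧ Sel4 k} ∧
      c * ((Cv 2 H).card : ℝ) ≤ (S.card : ℝ) := by
  classical
  obtain ⟨c, hc, H0, h⟩ := Pool.Agent.Y667.RZ.curvesW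
  refine ⟨c, hc, H0, fun H hH => ⟨_, fun k hk => ?_, (h H hH).1⟩⟩
  obtain ⟨h1, h2, h3, -⟩ := mem_filter.1 (mem_coe.1 hk)
  exact ⟨h1, h2, h3⟩

lemma Sh_one (A B : ℤ) : Sh ((1 : ℤ) ^ 2 * A) ((1 : ℤ) ^ 3 * B) = Sh A B := by
  rw [one_pow, one_pow, one_mul, one_mul]

open Pool.Agent.Y676.IS (NH) in
lemma Lk.two1 {c c' : ℤ × ℤ} {e q : ℤ} {u : ℕ} {r : ℤ} (L : Lk c c' e q u r) :
    ∃ (θ : NH (Sh c.1 c.2) (Sh c'.1 c'.2)) (θ' : NH (Sh c'.1 c'.2) (Sh c.1 c.2)),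
      ∀ (F : Type) [Field F] [Algebra ℚ F] (P : Pt (Sh c.1 c.2) F),
        θ'.f F (θ.f F P) = P + P := by
  have h := L.two (D := 1) one_ne_zero
  rw [Sh_one, Sh_one] at h
  exact h

/-- **the rank and the 2-primary part of the Tate-Shafarevich group** -/
theorem zero4 {c : ℤ × ℤ} (h : Q4 Sel4 c) :
    Module.finrank ℤ (Sh c.1 c.2).toAffine.Point = 0 ∧
      ∀ (k : ℕ) (x : Sha (Sh c.1 c.2)), (2 ^ k : ℕ) • x = 0 → x + x = 0 := by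
  classical
  obtain ⟨c', hS, hT, e, q, u, r, L⟩ := h
  obtain ⟨h1, h2⟩ := Pool.Agent.Y667.SHA.sha_zero4 L.D' hT hS.1 hS.2.le
  obtain ⟨θ, θ', h3⟩ := L.two1
  obtain ⟨e1, e2, e3, he⟩ := roots_Ok c' L.ok
  have hfin : Module.Finite ℤ (Sh c'.1 c'.2).toAffine.Point := by
    have := Pool.Agent.W307.RG.fin_tw L.D' he (d := 1) one_ne_zero
    rw [Sh_one] at this
    exact this
  refine ⟨?_, fun k x hx => sha_two θ θ' h3 x (h2 k _ ?_)⟩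
  · have h4 := pt_two θ θ' h3
    have h5 : Module.rank ℤ (Sh c'.1 c'.2).toAffine.Point =
        ((Module.finrank ℤ (Sh c'.1 c'.2).toAffine.Point : ℕ) : Cardinal) :=
      (Module.finrank_eq_rank ℤ _).symm
    have h6 : Module.finrank ℤ (Sh c'.1 c'.2).toAffine.Point = 0 := h1
    rw [h5, h6] at h4
    have := Module.finrank_le_of_rank_le h4
    omega
  · rw [← map_nsmul, hx, map_zero]

end Pool.Agent.Q17.IG
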